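import Pool.Agent.ER.Defs

/-!
# Cubic forms with integer coefficients

A cubic form in the variables `z_0, z_1, z_2, …` (only finitely many of which occur) is given by
a list of terms `c z_i z_j z_k` with integer coefficients `c`.
-/

namespace Pool.Agent.TH925.HC

/-- A term `c z_i z_j z_k`, given as `(c, i, j, k)`. -/
abbrev Mon : Type := ℤ × ℕ × ℕ × ℕ

/-- The value of a term. -/
def mev {R : Type} [CommRing R] (z : ℕ → R) (m : Mon) : R :=
  (m.1 : R) * (z m.2.1 * z m.2.2.1 * z m.2.2.2)

/-- The value of the cubic form with the given list of terms. -/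
def cubic {R : Type} [CommRing R] (L : List Mon) (z : ℕ → R) : R := (L.map (mev z)).sum

/-- The integer vector with the given list of coordinates (continued by zeros). -/
def dir (e : List ℤ) (i : ℕ) : ℤ := e.getD i 0

/-- The cubic form `p` is hyperbolic with respect to the direction `e`: `p(e) ≠ 0`, and for every
real vector `x` the polynomial `p(x + s e)` in `s` has only real roots. -/
def Hyperbolic (q : List Mon × List ℤ) : Prop :=
  cubic q.1 (fun i => ((dir q.2 i : ℤ) : ℝ)) ≠ 0 ∧
    ∀ (x : ℕ → ℝ) (s : ℂ), cubic q.1 (fun i => (x i : ℂ) + s * ((dir q.2 i : ℤ) : ℂ)) = 0 →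
      s.im = 0

/-- The cubic form is (real) stable: it does not vanish at points all of whose coordinates have
positive imaginary parts. -/
def Stable (L : List Mon) : Prop :=
  ∀ z : ℕ → ℂ, (∀ i, 0 < (z i).im) → cubic L z ≠ 0

end Pool.Agent.TH925.HC
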