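import Mathlib
import Pool.Agent.TH925.HC.Defs

/-!
# Real-rooted cubic polynomials, and cubic forms on a line
-/

namespace Pool.Agent.TH925.HC

open Filter Topology

/-- The discriminant of a cubic polynomial. -/
def disc (a b c d : ℝ) : ℝ :=
  b ^ 2 * c ^ 2 - 4 * a * c ^ 3 - 4 * b ^ 3 * d - 27 * a ^ 2 * d ^ 2 + 18 * a * b * c * d

theorem exists_real_root_pos {a : ℝ} (ha : 0 < a) (b c d : ℝ) :
    ∃ r : ℝ, a * r ^ 3 + b * r ^ 2 + c * r + d = 0 := by
  set M : ℝ := 1 + (|b| + |c| + |d|) / a with hM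
  have hb := abs_nonneg b
  have hc := abs_nonneg c
  have hd := abs_nonneg d
  have hM1 : 1 ≤ M := by
    have : 0 ≤ (|b| + |c| + |d|) / a := by positivity
    linarith
  have haM : a * M = a + (|b| + |c| + |d|) := by
    rw [hM]
    field_simp
  have hM0 : 0 ≤ M := by linarith
  have hM2 : M ≤ M ^ 2 := by nlinarith
  have hM3 : 1 ≤ M ^ 2 := by nlinarith
  have e3 : a * M ^ 3 = a * M ^ 2 + (|b| + |c| + |d|) * M ^ 2 := by
    rw [show a * M ^ 3 = (a * M) * M ^ 2 by ring, haM]
    ring
  have c1 : |b| * M ^ 2 + |c| * M + |d| ≤ (|b| + |c| + |d|) * M ^ 2 := by nlinarith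
  have hpos : 0 ≤ a * M ^ 3 + b * M ^ 2 + c * M + d := by
    have h1 := neg_abs_le b
    have h2 := neg_abs_le c
    have h3 := neg_abs_le d
    nlinarith [mul_nonneg ha.le (sq_nonneg M)]
  have hneg : a * (-M) ^ 3 + b * (-M) ^ 2 + c * (-M) + d ≤ 0 := by
    have h1 := le_abs_self b
    have h2 := neg_abs_le c
    have h3 := le_abs_self d
    nlinarith [mul_nonneg ha.le (sq_nonneg M)]
  have hcont : ContinuousOn (fun r : ℝ => a * r ^ 3 + b * r ^ 2 + c * r + d)
      (Set.Icc (-M) M) := by fun_prop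
  obtain ⟨r, _, hr⟩ := intermediate_value_Icc (by linarith : -M ≤ M) hcont
    (Set.mem_Icc.2 ⟨hneg, hpos⟩)
  exact ⟨r, hr⟩

theorem exists_real_root {a : ℝ} (ha : a ≠ 0) (b c d : ℝ) :
    ∃ r : ℝ, a * r ^ 3 + b * r ^ 2 + c * r + d = 0 := by
  rcases lt_or_gt_of_ne ha with h | h
  · obtain ⟨r, hr⟩ := exists_real_root_pos (neg_pos.2 h) (-b) (-c) (-d)
    exact ⟨r, by linarith⟩
  · exact exists_real_root_pos h b c d

/-- A cubic polynomial has only real roots if and only if its discriminant is nonnegative. -/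
theorem real_rooted_iff {a : ℝ} (ha : a ≠ 0) (b c d : ℝ) :
    (∀ s : ℂ, (a : ℂ) * s ^ 3 + b * s ^ 2 + c * s + d = 0 → s.im = 0) ↔ 0 ≤ disc a b c d := by
  obtain ⟨r, hr⟩ := exists_real_root ha b c d
  -- the quadratic factor
  set b' := b + a * r with hb'
  set c' := c + b' * r with hc'
  have hd' : d = -c' * r := by
    rw [hc', hb']
    linarith
  have eb : b = b' - a * r := by rw [hb']; ring
  have ec : c = c' - b' * r := by rw [hc']; ring
  have hfac : ∀ s : ℂ, (a : ℂ) * s ^ 3 + b * s ^ 2 + c * s + d =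
      (s - r) * (a * s ^ 2 + b' * s + c') := by
    intro s
    rw [eb, ec, hd']
    push_cast
    ring
  have hdisc : disc a b c d = (a * r ^ 2 + b' * r + c') ^ 2 * (b' ^ 2 - 4 * a * c') := by
    rw [eb, ec, hd']
    unfold disc
    ring
  have hsq : (2 * a * r + b') ^ 2 = (b' ^ 2 - 4 * a * c') + 4 * a * (a * r ^ 2 + b' * r + c') := by
    ring
  constructor
  · intro h
    rw [hdisc]
    apply mul_nonneg (sq_nonneg _)
    by_contra hneg
    push Not at hneg
    set w := Real.sqrt (-(b' ^ 2 - 4 * a * c')) with hw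
    have hw2 : w ^ 2 = -(b' ^ 2 - 4 * a * c') := Real.sq_sqrt (by linarith)
    have hw0 : 0 < w := Real.sqrt_pos.2 (by linarith)
    have hu : 2 * a * (-b' / (2 * a)) = -b' := by field_simp
    have hv : 2 * a * (w / (2 * a)) = w := by field_simp
    have h1 := h (⟨-b' / (2 * a), w / (2 * a)⟩ : ℂ) (by
      rw [hfac]
      apply mul_eq_zero_of_right
      apply Complex.ext
      · simp only [pow_two, Complex.add_re, Complex.mul_re, Complex.ofReal_re, Complex.ofReal_im,
          Complex.mul_im, Complex.zero_re]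
        set u := -b' / (2 * a)
        set v := w / (2 * a)
        have h4 : (4 * a) ≠ 0 := by simpa using ha
        apply mul_left_cancel₀ h4
        calc _ = (2 * a * u) ^ 2 - (2 * a * v) ^ 2 + 2 * b' * (2 * a * u) + 4 * a * c' := by ring
          _ = 4 * a * 0 := by rw [hu, hv, hw2]; ring
      · simp only [pow_two, Complex.add_im, Complex.mul_re, Complex.ofReal_re, Complex.ofReal_im,
          Complex.mul_im, Complex.zero_im]
        set u := -b' / (2 * a)
        set v := w / (2 * a)
        calc _ = (2 * a * u + b') * v := by ring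
          _ = 0 := by rw [hu]; ring)
    simp only at h1
    rw [div_eq_zero_iff] at h1
    rcases h1 with h1 | h1
    · linarith
    · exact ha (by linarith)
  · intro h s hs
    rw [hfac] at hs
    rcases mul_eq_zero.1 hs with h1 | h1
    · rw [sub_eq_zero] at h1
      rw [h1, Complex.ofReal_im]
    · by_contra him
      have h2 := congrArg Complex.im h1
      have h3 := congrArg Complex.re h1
      simp only [pow_two, Complex.add_im, Complex.mul_re, Complex.ofReal_re, Complex.ofReal_im,
          Complex.mul_im, Complex.zero_im, Complex.add_re, Complex.zero_re] at h2 h3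
      have h4 : 2 * a * s.re + b' = 0 := by
        have : s.im * (2 * a * s.re + b') = 0 := by linarith
        rcases mul_eq_zero.1 this with h5 | h5
        · exact absurd h5 him
        · exact h5
      have h5 : b' ^ 2 - 4 * a * c' = -(4 * a ^ 2 * s.im ^ 2) := by
        have e1 : b' = -(2 * a * s.re) := by linarith
        have e2 : c' = -(a * (s.re * s.re - s.im * s.im) + b' * s.re) := by linarith
        rw [e2, e1]
        ring
      have h6 : 0 < a ^ 2 * s.im ^ 2 := by positivity
      have h7 : b' ^ 2 - 4 * a * c' < 0 := by rw [h5]; linarith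
      rw [hdisc] at h
      have h8 : (a * r ^ 2 + b' * r + c') ^ 2 = 0 := by
        by_contra h9
        have h10 : 0 < (a * r ^ 2 + b' * r + c') ^ 2 :=
          lt_of_le_of_ne (sq_nonneg _) (Ne.symm h9)
        have := mul_neg_of_pos_of_neg h10 h7
        linarith
      have h9 : a * r ^ 2 + b' * r + c' = 0 := pow_eq_zero_iff (two_ne_zero) |>.1 h8
      rw [h9, mul_zero, add_zero] at hsq
      have := sq_nonneg (2 * a * r + b')
      linarith

section

variable {R : Type} [CommRing R]

/-- The mixed terms. -/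
def mix (L : List Mon) (x y : ℕ → R) : R :=
  (L.map fun m => (m.1 : R) * (x m.2.1 * (y m.2.2.1 * y m.2.2.2) +
    y m.2.1 * x m.2.2.1 * y m.2.2.2 + y m.2.1 * y m.2.2.1 * x m.2.2.2)).sum

/-- A cubic form on a line. -/
theorem cubic_line (L : List Mon) (x y : ℕ → R) (s : R) :
    cubic L (fun i => x i + s * y i) =
      cubic L y * s ^ 3 + mix L x y * s ^ 2 + mix L y x * s + cubic L x := by
  induction L with
  | nil => simp [cubic, mix]
  | cons m L ih =>
    have e1 : ∀ z : ℕ → R, cubic (m :: L) z = mev z m + cubic L z := fun z => by simp [cubic]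
    have e2 : ∀ x y : ℕ → R, mix (m :: L) x y = (m.1 : R) * (x m.2.1 * (y m.2.2.1 * y m.2.2.2) +
        y m.2.1 * x m.2.2.1 * y m.2.2.2 + y m.2.1 * y m.2.2.1 * x m.2.2.2) + mix L x y :=
      fun x y => by simp [mix]
    rw [e1, e1, e1, e2, e2, ih]
    unfold mev
    ring

theorem cubic_smul (L : List Mon) (s : R) (z : ℕ → R) :
    cubic L (fun i => s * z i) = s ^ 3 * cubic L z := by
  unfold cubic
  rw [← List.sum_map_mul_left]
  congr 1
  apply List.map_congr_left
  intro m _
  unfold mev
  ring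

end

theorem cubic_ofReal (L : List Mon) (x : ℕ → ℝ) :
    cubic L (fun i => (x i : ℂ)) = ((cubic L x : ℝ) : ℂ) := by
  unfold cubic
  induction L with
  | nil => simp
  | cons m L ih =>
    rw [List.map_cons, List.map_cons, List.sum_cons, List.sum_cons, ih]
    unfold mev
    push_cast
    rfl

theorem mix_ofReal (L : List Mon) (x y : ℕ → ℝ) :
    mix L (fun i => (x i : ℂ)) (fun i => (y i : ℂ)) = ((mix L x y : ℝ) : ℂ) := by
  unfold mix
  induction L with
  | nil => simp
  | cons m L ih =>
    rw [List.map_cons, List.map_cons, List.sum_cons, List.sum_cons, ih]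
    push_cast
    rfl

/-- The roots of a cubic form on a real line. -/
theorem line_real (L : List Mon) (x y : ℕ → ℝ) (s : ℂ) :
    cubic L (fun i => (x i : ℂ) + s * (y i : ℂ)) = (cubic L y : ℝ) * s ^ 3 +
      (mix L x y : ℝ) * s ^ 2 + (mix L y x : ℝ) * s + (cubic L x : ℝ) := by
  rw [cubic_line L (fun i => (x i : ℂ)) (fun i => (y i : ℂ)) s, cubic_ofReal, cubic_ofReal,
    mix_ofReal, mix_ofReal]

theorem hyperbolic_line_iff (L : List Mon) {y : ℕ → ℝ} (hy : cubic L y ≠ 0) (x : ℕ → ℝ) :
    (∀ s : ℂ, cubic L (fun i => (x i : ℂ) + s * (y i : ℂ)) = 0 → s.im = 0) ↔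
      0 ≤ disc (cubic L y) (mix L x y) (mix L y x) (cubic L x) := by
  rw [← real_rooted_iff hy]
  simp_rw [line_real]

/-- It is sufficient to exclude roots in the upper half-plane. -/
theorem real_of_upper (L : List Mon) (x y : ℕ → ℝ)
    (h : ∀ s : ℂ, 0 < s.im → cubic L (fun i => (x i : ℂ) + s * (y i : ℂ)) ≠ 0) (s : ℂ)
    (hs : cubic L (fun i => (x i : ℂ) + s * (y i : ℂ)) = 0) : s.im = 0 := by
  rcases lt_trichotomy s.im 0 with h1 | h1 | h1
  · exfalso
    apply h ((starRingEnd ℂ) s) (by rw [Complex.conj_im]; linarith)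
    rw [line_real] at hs ⊢
    have := congrArg (starRingEnd ℂ) hs
    simpa only [map_add, map_mul, map_pow, Complex.conj_ofReal, map_zero] using this
  · exact h1
  · exact absurd hs (h s h1)

end Pool.Agent.TH925.HC
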