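import Mathlib
import Pool.Agent.TH925.HC.Cub

/-!
# Gårding's theorem for cubic forms

A cubic form which is hyperbolic in the direction `e` has no zero `x + i a`, if `x` is real and `a`
belongs to the hyperbolicity cone of `e`.
-/

namespace Pool.Agent.TH925.HC

open Filter Topology

/-- A cubic polynomial over the complex numbers is a product of linear factors. -/
theorem exists_roots {A : ℂ} (hA : A ≠ 0) (B C D : ℂ) : ∃ r₁ r₂ r₃ : ℂ, ∀ s : ℂ,
    A * s ^ 3 + B * s ^ 2 + C * s + D = A * ((s - r₁) * (s - r₂) * (s - r₃)) := by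
  -- a root of the cubic polynomial
  obtain ⟨r, hr⟩ : ∃ r : ℂ, A * r ^ 3 + B * r ^ 2 + C * r + D = 0 := by
    have h1 : (Polynomial.C A * Polynomial.X ^ 3 + Polynomial.C B * Polynomial.X ^ 2 +
        Polynomial.C C * Polynomial.X + Polynomial.C D : Polynomial ℂ).degree ≠ 0 := by
      rw [Polynomial.degree_cubic hA]
      norm_num
    obtain ⟨r, hr⟩ := IsAlgClosed.exists_root _ h1
    refine ⟨r, ?_⟩
    simpa [Polynomial.IsRoot, Polynomial.eval_add, Polynomial.eval_mul, Polynomial.eval_pow]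
      using hr
  set B' := B + A * r with hB'
  set C' := C + B' * r with hC'
  obtain ⟨t, ht⟩ : ∃ t : ℂ, A * t ^ 2 + B' * t + C' = 0 := by
    have h1 : (Polynomial.C A * Polynomial.X ^ 2 + Polynomial.C B' * Polynomial.X +
        Polynomial.C C' : Polynomial ℂ).degree ≠ 0 := by
      rw [Polynomial.degree_quadratic hA]
      norm_num
    obtain ⟨t, ht⟩ := IsAlgClosed.exists_root _ h1
    refine ⟨t, ?_⟩
    simpa [Polynomial.IsRoot, Polynomial.eval_add, Polynomial.eval_mul, Polynomial.eval_pow]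
      using ht
  refine ⟨r, t, -B' / A - t, fun s => ?_⟩
  have hD : D = -C' * r := by rw [hC', hB']; linear_combination hr
  have hC2 : C' = -(A * t ^ 2 + B' * t) := by linear_combination ht
  have e1 : C = C' - B' * r := by rw [hC']; ring
  have e2 : B = B' - A * r := by rw [hB']; ring
  rw [hD, e1, e2, hC2]
  field_simp
  ring

/-- If the value of the polynomial at `s` is small then there is a root near `s`. -/
theorem near_root {A : ℂ} (hA : A ≠ 0) (B C D s : ℂ) {ε : ℝ} (hε : 0 < ε)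
    (h : ‖A * s ^ 3 + B * s ^ 2 + C * s + D‖ < ‖A‖ * ε ^ 3) :
    ∃ r : ℂ, A * r ^ 3 + B * r ^ 2 + C * r + D = 0 ∧ ‖s - r‖ < ε := by
  obtain ⟨r₁, r₂, r₃, hr⟩ := exists_roots hA B C D
  have hA' : 0 < ‖A‖ := norm_pos_iff.2 hA
  rw [hr, norm_mul, norm_mul, norm_mul] at h
  have h2 : ‖s - r₁‖ * ‖s - r₂‖ * ‖s - r₃‖ < ε ^ 3 := lt_of_mul_lt_mul_left h hA'.le
  by_contra hcon
  push Not at hcon
  have g1 := hcon r₁ (by rw [hr]; ring)
  have g2 := hcon r₂ (by rw [hr]; ring)
  have g3 := hcon r₃ (by rw [hr]; ring)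
  have : ε ^ 3 ≤ ‖s - r₁‖ * ‖s - r₂‖ * ‖s - r₃‖ := by
    calc ε ^ 3 = ε * ε * ε := by ring
      _ ≤ _ := by gcongr
  linarith

/-- The distance from a point of the lower half-plane to the points of the upper one. -/
theorem dist_upper {r : ℂ} (hr : r.im < 0) : ∃ c : ℝ, 0 < c ∧ ∀ s : ℂ, 0 ≤ s.im →
    c * (1 + ‖s‖) ≤ ‖s - r‖ := by
  set δ := -r.im with hδ
  have hδ0 : 0 < δ := by linarith
  refine ⟨(1 + (1 + ‖r‖) / δ)⁻¹, by positivity, fun s hs => ?_⟩
  have h1 : δ ≤ ‖s - r‖ := by
    have := Complex.abs_im_le_norm (s - r)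
    rw [Complex.sub_im] at this
    have h2 := le_abs_self (s.im - r.im)
    linarith
  have h2 : ‖s‖ ≤ ‖s - r‖ + ‖r‖ := by
    calc ‖s‖ = ‖(s - r) + r‖ := by ring_nf
      _ ≤ _ := norm_add_le _ _
  rw [inv_mul_le_iff₀ (by positivity)]
  have h3 : 1 + ‖r‖ ≤ (1 + ‖r‖) / δ * ‖s - r‖ := by
    rw [div_mul_eq_mul_div, le_div_iff₀ hδ0]
    have := norm_nonneg r
    nlinarith
  linarith

/-- The polynomials all of whose roots lie in the lower half-plane form an open set. -/
theorem open_lower {A : ℂ} (hA : A ≠ 0) {B C D : ℝ → ℂ} (hB : Continuous B) (hC : Continuous C)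
    (hD : Continuous D) {l : ℝ}
    (h : ∀ s : ℂ, A * s ^ 3 + B l * s ^ 2 + C l * s + D l = 0 → s.im < 0) :
    ∀ᶠ k in 𝓝 l, ∀ s : ℂ, A * s ^ 3 + B k * s ^ 2 + C k * s + D k = 0 → s.im < 0 := by
  obtain ⟨r₁, r₂, r₃, hr⟩ := exists_roots hA (B l) (C l) (D l)
  obtain ⟨c₁, hc₁, g₁⟩ := dist_upper (h r₁ (by rw [hr]; ring))
  obtain ⟨c₂, hc₂, g₂⟩ := dist_upper (h r₂ (by rw [hr]; ring))
  obtain ⟨c₃, hc₃, g₃⟩ := dist_upper (h r₃ (by rw [hr]; ring))
  have hA' : 0 < ‖A‖ := norm_pos_iff.2 hA
  have hcont : Continuous (fun k : ℝ => ‖B k - B l‖ + ‖C k - C l‖ + ‖D k - D l‖) := by fun_prop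
  have h0 : ‖B l - B l‖ + ‖C l - C l‖ + ‖D l - D l‖ < ‖A‖ * (c₁ * c₂ * c₃) := by
    simp only [sub_self, norm_zero, add_zero]
    positivity
  filter_upwards [hcont.continuousAt.eventually_lt continuousAt_const h0] with k hk
  intro s hs
  by_contra him
  push Not at him
  have e1 : A * s ^ 3 + B l * s ^ 2 + C l * s + D l =
      -((B k - B l) * s ^ 2 + (C k - C l) * s + (D k - D l)) := by
    linear_combination hs
  have e2 : ‖A * s ^ 3 + B l * s ^ 2 + C l * s + D l‖ ≤
      (‖B k - B l‖ + ‖C k - C l‖ + ‖D k - D l‖) * (1 + ‖s‖) ^ 2 := by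
    rw [e1, norm_neg]
    have hn := norm_nonneg s
    calc _ ≤ ‖(B k - B l) * s ^ 2‖ + ‖(C k - C l) * s‖ + ‖D k - D l‖ :=
          (norm_add_le _ _).trans (add_le_add_left (norm_add_le _ _) _)
      _ = ‖B k - B l‖ * ‖s‖ ^ 2 + ‖C k - C l‖ * ‖s‖ + ‖D k - D l‖ := by
          rw [norm_mul, norm_mul, norm_pow]
      _ ≤ ‖B k - B l‖ * (1 + ‖s‖) ^ 2 + ‖C k - C l‖ * (1 + ‖s‖) ^ 2 +
          ‖D k - D l‖ * (1 + ‖s‖) ^ 2 := by
          have a1 := norm_nonneg (B k - B l)
          have a2 := norm_nonneg (C k - C l)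
          have a3 := norm_nonneg (D k - D l)
          have b1 : ‖s‖ ^ 2 ≤ (1 + ‖s‖) ^ 2 := by nlinarith
          have b2 : ‖s‖ ≤ (1 + ‖s‖) ^ 2 := by nlinarith
          have b3 : 1 ≤ (1 + ‖s‖) ^ 2 := by nlinarith
          have := mul_le_mul_of_nonneg_left b1 a1
          have := mul_le_mul_of_nonneg_left b2 a2
          have := mul_le_mul_of_nonneg_left b3 a3
          linarith
      _ = _ := by ring
  have e3 : ‖A‖ * (c₁ * c₂ * c₃) * (1 + ‖s‖) ^ 3 ≤
      ‖A * s ^ 3 + B l * s ^ 2 + C l * s + D l‖ := by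
    rw [hr, norm_mul, norm_mul, norm_mul]
    have a1 := g₁ s him
    have a2 := g₂ s him
    have a3 := g₃ s him
    have hn := norm_nonneg s
    calc ‖A‖ * (c₁ * c₂ * c₃) * (1 + ‖s‖) ^ 3 =
        ‖A‖ * ((c₁ * (1 + ‖s‖)) * (c₂ * (1 + ‖s‖)) * (c₃ * (1 + ‖s‖))) := by ring
      _ ≤ _ := by gcongr
  have hn := norm_nonneg s
  have e4 : (1 + ‖s‖) ^ 2 ≤ (1 + ‖s‖) ^ 3 := pow_le_pow_right₀ (by linarith) (by norm_num)
  have e5 : ‖A‖ * (c₁ * c₂ * c₃) * (1 + ‖s‖) ^ 2 ≤ ‖A‖ * (c₁ * c₂ * c₃) * (1 + ‖s‖) ^ 3 :=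
    mul_le_mul_of_nonneg_left e4 (by positivity)
  have e6 : (‖B k - B l‖ + ‖C k - C l‖ + ‖D k - D l‖) * (1 + ‖s‖) ^ 2 <
      ‖A‖ * (c₁ * c₂ * c₃) * (1 + ‖s‖) ^ 2 := mul_lt_mul_of_pos_right hk (by positivity)
  linarith

/-- The polynomials with a root in the upper half-plane form an open set. -/
theorem open_upper {A : ℂ} (hA : A ≠ 0) {B C D : ℝ → ℂ} (hB : Continuous B) (hC : Continuous C)
    (hD : Continuous D) {l : ℝ} {s : ℂ} (hs : A * s ^ 3 + B l * s ^ 2 + C l * s + D l = 0)
    (him : 0 < s.im) :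
    ∀ᶠ k in 𝓝 l, ∃ r : ℂ, A * r ^ 3 + B k * r ^ 2 + C k * r + D k = 0 ∧ 0 < r.im := by
  have hA' : 0 < ‖A‖ := norm_pos_iff.2 hA
  have hcont : Continuous (fun k : ℝ => ‖A * s ^ 3 + B k * s ^ 2 + C k * s + D k‖) := by fun_prop
  have h0 : ‖A * s ^ 3 + B l * s ^ 2 + C l * s + D l‖ < ‖A‖ * s.im ^ 3 := by
    rw [hs, norm_zero]; positivity
  filter_upwards [hcont.continuousAt.eventually_lt continuousAt_const h0] with k hk
  obtain ⟨r, hr, hd⟩ := near_root hA _ _ _ s him hk
  refine ⟨r, hr, ?_⟩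
  have h1 := Complex.abs_im_le_norm (s - r)
  rw [Complex.sub_im] at h1
  have h2 := le_abs_self (s.im - r.im)
  linarith

section

variable (x e : ℕ → ℝ)

/-- The coefficients of the polynomial `p(l x + i α e + s a)` in `s`. -/
noncomputable def vec (l α : ℝ) : ℕ → ℂ := fun i => (l : ℂ) * x i + (α : ℂ) * Complex.I * e i

end

section

variable {R : Type} [CommRing R] [TopologicalSpace R] [IsTopologicalRing R] (L : List Mon)

theorem continuous_mix1 {v : ℝ → ℕ → R} (hv : ∀ i, Continuous fun l => v l i) (w : ℕ → R) :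
    Continuous fun l => mix L (v l) w := by
  unfold mix
  induction L with
  | nil => simpa using continuous_const
  | cons m L ih =>
    simp only [List.map_cons, List.sum_cons]
    refine Continuous.add ?_ ih
    have h1 := hv m.2.1
    have h2 := hv m.2.2.1
    have h3 := hv m.2.2.2
    fun_prop

theorem continuous_mix2 {v : ℝ → ℕ → R} (hv : ∀ i, Continuous fun l => v l i) (w : ℕ → R) :
    Continuous fun l => mix L w (v l) := by
  unfold mix
  induction L with
  | nil => simpa using continuous_const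
  | cons m L ih =>
    simp only [List.map_cons, List.sum_cons]
    refine Continuous.add ?_ ih
    have h1 := hv m.2.1
    have h2 := hv m.2.2.1
    have h3 := hv m.2.2.2
    fun_prop

theorem continuous_cubic {v : ℝ → ℕ → R} (hv : ∀ i, Continuous fun l => v l i) :
    Continuous fun l => cubic L (v l) := by
  unfold cubic
  induction L with
  | nil => simpa using continuous_const
  | cons m L ih =>
    simp only [List.map_cons, List.sum_cons]
    refine Continuous.add ?_ ih
    have h1 := hv m.2.1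
    have h2 := hv m.2.2.1
    have h3 := hv m.2.2.2
    unfold mev
    fun_prop

end

section

variable {L : List Mon} {x e a : ℕ → ℝ}

/-- **Gårding's theorem.** -/
theorem garding
    (he : ∀ (x : ℕ → ℝ) (s : ℂ), cubic L (fun i => (x i : ℂ) + s * (e i : ℂ)) = 0 → s.im = 0)
    (hE : cubic L e ≠ 0) (hcone : ∀ r : ℝ, 0 ≤ r → cubic L (fun i => a i + r * e i) ≠ 0) :
    cubic L (fun i => (x i : ℂ) + Complex.I * (a i : ℂ)) ≠ 0 := by
  have hA : cubic L (fun i => (a i : ℂ)) ≠ 0 := by
    rw [cubic_ofReal]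
    have h1 := hcone 0 le_rfl
    simp only [zero_mul, add_zero] at h1
    exact_mod_cast h1
  set A := cubic L (fun i => (a i : ℂ)) with hAdef
  -- the polynomial
  have hline : ∀ (v : ℕ → ℂ) (s : ℂ), cubic L (fun i => v i + s * (a i : ℂ)) =
      A * s ^ 3 + mix L v (fun i => (a i : ℂ)) * s ^ 2 + mix L (fun i => (a i : ℂ)) v * s +
        cubic L v := fun v s => cubic_line L v (fun i => (a i : ℂ)) s
  -- no real roots
  have hreal : ∀ (l α s : ℝ), α ≠ 0 → cubic L (fun i => vec x e l α i + (s : ℂ) * (a i : ℂ)) ≠ 0 := by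
    intro l α s hα h0
    have h1 := he (fun i => l * x i + s * a i) ((α : ℂ) * Complex.I) (by
      rw [← h0]
      congr 1
      ext i
      unfold vec
      push_cast
      ring)
    simp only [Complex.mul_im, Complex.ofReal_re, Complex.I_im, mul_one, Complex.ofReal_im,
      Complex.I_re, mul_zero, add_zero] at h1
    exact hα h1
  -- the case `l = 0`
  have hzero : ∀ (α : ℝ), 0 < α → ∀ s : ℂ, cubic L (fun i => vec x e 0 α i + s * (a i : ℂ)) = 0 →
      s.im < 0 := by
    intro α hα s h0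
    have hs : s ≠ 0 := by
      rintro rfl
      have h1 : (fun i => vec x e 0 α i + (0 : ℂ) * (a i : ℂ)) =
          fun i => ((α : ℂ) * Complex.I) * (e i : ℂ) := by
        ext i; unfold vec; push_cast; ring
      rw [h1, cubic_smul, cubic_ofReal] at h0
      rcases mul_eq_zero.1 h0 with h2 | h2
      · have h3 : (α : ℂ) * Complex.I ≠ 0 :=
          mul_ne_zero (by exact_mod_cast hα.ne') Complex.I_ne_zero
        exact h3 (pow_eq_zero_iff (by norm_num) |>.1 h2)
      · exact hE (by exact_mod_cast h2)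
    have h1 : cubic L (fun i => (a i : ℂ) + ((α : ℂ) * Complex.I / s) * (e i : ℂ)) = 0 := by
      have h2 : (fun i => vec x e 0 α i + s * (a i : ℂ)) =
          fun i => s * ((a i : ℂ) + ((α : ℂ) * Complex.I / s) * (e i : ℂ)) := by
        ext i; unfold vec; field_simp; push_cast; ring
      rw [h2, cubic_smul] at h0
      rcases mul_eq_zero.1 h0 with h3 | h3
      · exact absurd (pow_eq_zero_iff (by norm_num) |>.1 h3) hs
      · exact h3
    have h2 := he a _ h1
    set ν := ((α : ℂ) * Complex.I / s).re with hν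
    have h3 : (α : ℂ) * Complex.I / s = (ν : ℂ) := by
      apply Complex.ext
      · rw [Complex.ofReal_re]
      · rw [h2, Complex.ofReal_im]
    have h4 : ν < 0 := by
      by_contra hcon
      push Not at hcon
      apply hcone ν hcon
      rw [h3] at h1
      have h5 : (fun i => (a i : ℂ) + (ν : ℂ) * (e i : ℂ)) =
          fun i => ((a i + ν * e i : ℝ) : ℂ) := by
        ext i; push_cast; rfl
      rw [h5, cubic_ofReal] at h1
      exact_mod_cast h1
    have h5 : s = ((α / ν : ℝ) : ℂ) * Complex.I := by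
      have hν0 : (ν : ℂ) ≠ 0 := by exact_mod_cast h4.ne
      rw [div_eq_iff hs] at h3
      push_cast
      rw [div_mul_eq_mul_div, eq_div_iff hν0]
      linear_combination -h3
    rw [h5]
    simp only [Complex.mul_im, Complex.ofReal_re, Complex.I_im, mul_one, Complex.ofReal_im,
      Complex.I_re, mul_zero, add_zero]
    exact div_neg_of_pos_of_neg hα h4
  -- the path
  have hpath : ∀ (α : ℝ), 0 < α → ∀ (l : ℝ) (s : ℂ),
      cubic L (fun i => vec x e l α i + s * (a i : ℂ)) = 0 → s.im < 0 := by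
    intro α hα
    have hv : ∀ i, Continuous fun l => vec x e l α i := fun i => by
      unfold vec
      fun_prop
    have hB := continuous_mix1 L hv (fun i => (a i : ℂ))
    have hC := continuous_mix2 L hv (fun i => (a i : ℂ))
    have hD := continuous_cubic L hv
    set G : Set ℝ := {l | ∀ s : ℂ, cubic L (fun i => vec x e l α i + s * (a i : ℂ)) = 0 →
      s.im < 0} with hG
    have hopen : IsOpen G := by
      rw [isOpen_iff_mem_nhds]
      intro l hl
      have h1 := open_lower hA hB hC hD (l := l) (fun s hs => hl s (by rw [hline]; exact hs))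
      filter_upwards [h1] with k hk
      intro s hs
      rw [hline] at hs
      exact hk s hs
    have hclosed : IsClosed G := by
      rw [← isOpen_compl_iff, isOpen_iff_mem_nhds]
      intro l hl
      have hl' : ∃ s : ℂ, cubic L (fun i => vec x e l α i + s * (a i : ℂ)) = 0 ∧ 0 ≤ s.im := by
        by_contra hcon
        push Not at hcon
        exact hl hcon
      obtain ⟨s, hs, him⟩ := hl'
      have him' : 0 < s.im := by
        rcases him.lt_or_eq with h1 | h1
        · exact h1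
        · exfalso
          have h2 : s = ((s.re : ℝ) : ℂ) := by
            apply Complex.ext
            · rw [Complex.ofReal_re]
            · rw [← h1, Complex.ofReal_im]
          rw [h2] at hs
          exact hreal l α s.re hα.ne' hs
      rw [hline] at hs
      filter_upwards [open_upper hA hB hC hD hs him'] with k hk
      obtain ⟨r, hr, hr'⟩ := hk
      intro hkG
      have := hkG r (by rw [hline]; exact hr)
      linarith
    have hne : G.Nonempty := ⟨0, hzero α hα⟩
    have huniv : G = Set.univ := IsClopen.eq_univ ⟨hclosed, hopen⟩ hne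
    intro l s hs
    have : l ∈ G := by rw [huniv]; exact Set.mem_univ _
    exact this s hs
  -- the limit `α → 0`
  intro h0
  have hv : ∀ i, Continuous fun α => vec x e 1 α i := fun i => by
    unfold vec
    fun_prop
  have hB := continuous_mix1 L hv (fun i => (a i : ℂ))
  have hC := continuous_mix2 L hv (fun i => (a i : ℂ))
  have hD := continuous_cubic L hv
  have h1 : A * Complex.I ^ 3 + mix L (vec x e 1 0) (fun i => (a i : ℂ)) * Complex.I ^ 2 +
      mix L (fun i => (a i : ℂ)) (vec x e 1 0) * Complex.I + cubic L (vec x e 1 0) = 0 := by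
    rw [← hline, ← h0]
    congr 1
    ext i
    unfold vec
    push_cast
    ring
  have h2 := open_upper hA hB hC hD h1 (by simp)
  obtain ⟨δ, hδ, h3⟩ := Metric.eventually_nhds_iff.1 h2
  obtain ⟨r, hr, him⟩ := h3 (y := δ / 2) (by
    rw [Real.dist_eq, sub_zero, abs_of_pos (by linarith)]
    linarith)
  have h4 := hpath (δ / 2) (by linarith) 1 r (by rw [hline]; exact hr)
  linarith

end

end Pool.Agent.TH925.HC
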