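import Pool.Agent.TH925.HC.Gard
import Pool.Agent.TH925.CQ.Inst

/-!
# From biquadratic forms to hyperbolic and stable cubic forms

`p(z) = t³ - s t (|x|² + |y|² + |w|²) + 2 s ∑ w_k β_k(x, y)` with `t = z_0 + K ∑_{j > 0} z_j`.
-/

namespace Pool.Agent.TH925.HC

open Pool.Agent.H78R3.TSV
open Pool.Agent.TH925.CQ (ip bil bv bv_bil BQ ip_eq ip_self_eq ip_self_nonneg normalise)

/-- The indices of the variables other than `z_0`. -/
def others (n m : ℕ) : List ℕ :=
  ((List.range n).flatMap fun i => [3 * i + 1, 3 * i + 2]) ++ (List.range m).map fun k => 3 * k + 3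

/-- The linear form `z_0 + K ∑ z_j`. -/
def lin (K : ℤ) (J : List ℕ) : List (ℤ × ℕ) := (1, 0) :: J.map fun j => (K, j)

/-- The cube of a linear form. -/
def cubeM (l : List (ℤ × ℕ)) : List Mon :=
  l.flatMap fun a => l.flatMap fun b => l.map fun c => (a.1 * b.1 * c.1, a.2, b.2, c.2)

/-- `- s` times a linear form times a sum of squares. -/
def quadM (s : ℤ) (l : List (ℤ × ℕ)) (J : List ℕ) : List Mon :=
  l.flatMap fun a => J.map fun j => (-(s * a.1), a.2, j, j)

/-- `2 s` times the trilinear form. -/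
def triM (s : ℤ) (L : List (List QT)) : List Mon :=
  (List.range L.length).flatMap fun k => (bil (L.getD k [])).map fun t =>
    (2 * s * t.1, 3 * k + 3, 3 * t.2.1 + 1, 3 * t.2.2 + 2)

/-- The cubic form. -/
def inst (K s : ℤ) (n : ℕ) (L : List (List QT)) : List Mon :=
  cubeM (lin K (others n L.length)) ++ (quadM s (lin K (others n L.length)) (others n L.length) ++
    triM s L)

section

variable {R : Type} [CommRing R]

/-- The value of a linear form. -/
def lv (l : List (ℤ × ℕ)) (z : ℕ → R) : R := (l.map fun a => (a.1 : R) * z a.2).sum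

/-- The sum of the squares. -/
def nv (J : List ℕ) (z : ℕ → R) : R := (J.map fun j => z j * z j).sum

/-- The trilinear form. -/
def tv (L : List (List QT)) (z : ℕ → R) : R :=
  ((List.range L.length).map fun k => z (3 * k + 3) * ((bil (L.getD k [])).map fun t =>
    (t.1 : R) * (z (3 * t.2.1 + 1) * z (3 * t.2.2 + 2))).sum).sum

theorem cubic_append (A B : List Mon) (z : ℕ → R) :
    cubic (A ++ B) z = cubic A z + cubic B z := by simp [cubic]

theorem cubic_flatMap {α : Type} (l : List α) (F : α → List Mon) (z : ℕ → R) :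
    cubic (l.flatMap F) z = (l.map fun a => cubic (F a) z).sum := by
  induction l with
  | nil => simp [cubic]
  | cons a l ih => rw [List.flatMap_cons, cubic_append, ih, List.map_cons, List.sum_cons]

theorem cubic_map {α : Type} (l : List α) (F : α → Mon) (z : ℕ → R) :
    cubic (l.map F) z = (l.map fun a => mev z (F a)).sum := by
  unfold cubic
  rw [List.map_map]
  rfl

theorem cubic_cubeM (l : List (ℤ × ℕ)) (z : ℕ → R) : cubic (cubeM l) z = lv l z ^ 3 := by
  unfold cubeM
  rw [cubic_flatMap]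
  have h1 : ∀ a b c : ℤ × ℕ, mev z (a.1 * b.1 * c.1, a.2, b.2, c.2) =
      ((a.1 : R) * z a.2) * (((b.1 : R) * z b.2) * ((c.1 : R) * z c.2)) := by
    intro a b c
    unfold mev
    push_cast
    ring
  simp_rw [cubic_flatMap, cubic_map, h1, List.sum_map_mul_left, List.sum_map_mul_right]
  unfold lv
  ring

theorem cubic_quadM (s : ℤ) (l : List (ℤ × ℕ)) (J : List ℕ) (z : ℕ → R) :
    cubic (quadM s l J) z = -((s : R) * lv l z * nv J z) := by
  unfold quadM
  rw [cubic_flatMap]
  have h1 : ∀ (a : ℤ × ℕ) (j : ℕ), mev z (-(s * a.1), a.2, j, j) =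
      ((a.1 : R) * z a.2) * (-(s : R) * (z j * z j)) := by
    intro a j
    unfold mev
    push_cast
    ring
  simp_rw [cubic_map, h1, List.sum_map_mul_left, List.sum_map_mul_right]
  unfold lv nv
  ring

theorem cubic_triM (s : ℤ) (L : List (List QT)) (z : ℕ → R) :
    cubic (triM s L) z = 2 * (s : R) * tv L z := by
  unfold triM
  rw [cubic_flatMap]
  have h1 : ∀ (k : ℕ) (t : QT), mev z (2 * s * t.1, 3 * k + 3, 3 * t.2.1 + 1, 3 * t.2.2 + 2) =
      (2 * (s : R)) * (z (3 * k + 3) * ((t.1 : R) * (z (3 * t.2.1 + 1) * z (3 * t.2.2 + 2)))) := by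
    intro k t
    unfold mev
    push_cast
    ring
  simp_rw [cubic_map, h1, List.sum_map_mul_left]
  rfl

/-- The value of the cubic form. -/
theorem cubic_inst (K s : ℤ) (n : ℕ) (L : List (List QT)) (z : ℕ → R) :
    cubic (inst K s n L) z = lv (lin K (others n L.length)) z ^ 3 -
      (s : R) * lv (lin K (others n L.length)) z * nv (others n L.length) z +
        2 * (s : R) * tv L z := by
  unfold inst
  rw [cubic_append, cubic_append, cubic_cubeM, cubic_quadM, cubic_triM]
  ring

/-- The first unit vector. -/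
def e0 (i : ℕ) : ℝ := if i = 0 then 1 else 0

theorem mem_others {n m j : ℕ} (h : j ∈ others n m) : j ≠ 0 := by
  unfold others at h
  rw [List.mem_append, List.mem_flatMap, List.mem_map] at h
  rcases h with ⟨i, _, hi⟩ | ⟨k, _, rfl⟩
  · simp only [List.mem_cons, List.not_mem_nil, or_false] at hi
    omega
  · omega

end

theorem lv_line (K : ℤ) {J : List ℕ} (hJ : ∀ j ∈ J, j ≠ 0) (x : ℕ → ℝ) (s : ℂ) :
    lv (lin K J) (fun i => (x i : ℂ) + s * (e0 i : ℂ)) = ((lv (lin K J) x : ℝ) : ℂ) + s := by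
  unfold lv lin
  rw [List.map_cons, List.map_cons, List.sum_cons, List.sum_cons, List.map_map, List.map_map]
  have h1 : (J.map ((fun a : ℤ × ℕ => (a.1 : ℂ) * ((x a.2 : ℂ) + s * (e0 a.2 : ℂ))) ∘
      fun j => (K, j))).sum = (((J.map ((fun a : ℤ × ℕ => (a.1 : ℝ) * x a.2) ∘
      fun j => (K, j))).sum : ℝ) : ℂ) := by
    induction J with
    | nil => simp
    | cons j J ih =>
      rw [List.map_cons, List.map_cons, List.sum_cons, List.sum_cons,
        ih (fun j hj => hJ j (List.mem_cons_of_mem _ hj))]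
      have h2 : e0 j = 0 := by
        unfold e0; rw [if_neg (hJ j List.mem_cons_self)]
      simp only [Function.comp, h2]
      push_cast
      ring
  rw [h1]
  have h3 : e0 0 = 1 := rfl
  simp only [h3]
  push_cast
  ring

theorem nv_line {J : List ℕ} (hJ : ∀ j ∈ J, j ≠ 0) (x : ℕ → ℝ) (s : ℂ) :
    nv J (fun i => (x i : ℂ) + s * (e0 i : ℂ)) = ((nv J x : ℝ) : ℂ) := by
  unfold nv
  induction J with
  | nil => simp
  | cons j J ih =>
    rw [List.map_cons, List.map_cons, List.sum_cons, List.sum_cons,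
      ih (fun j hj => hJ j (List.mem_cons_of_mem _ hj))]
    have h2 : e0 j = 0 := by
      unfold e0; rw [if_neg (hJ j List.mem_cons_self)]
    simp only [h2]
    push_cast
    ring

theorem tv_line (L : List (List QT)) (x : ℕ → ℝ) (s : ℂ) :
    tv L (fun i => (x i : ℂ) + s * (e0 i : ℂ)) = ((tv L x : ℝ) : ℂ) := by
  have h0 : ∀ i : ℕ, (x (i + 1) : ℂ) + s * (e0 (i + 1) : ℂ) = (x (i + 1) : ℂ) := by
    intro i
    have : e0 (i + 1) = 0 := by unfold e0; rw [if_neg (by omega)]
    rw [this]; simp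
  have h1 : ∀ l : List QT, (l.map fun t => (t.1 : ℂ) * (((x (3 * t.2.1 + 1) : ℂ) +
      s * (e0 (3 * t.2.1 + 1) : ℂ)) * ((x (3 * t.2.2 + 2) : ℂ) +
      s * (e0 (3 * t.2.2 + 2) : ℂ)))).sum =
      (((l.map fun t => (t.1 : ℝ) * (x (3 * t.2.1 + 1) * x (3 * t.2.2 + 2))).sum : ℝ) : ℂ) := by
    intro l
    induction l with
    | nil => simp
    | cons t l ih =>
      rw [List.map_cons, List.map_cons, List.sum_cons, List.sum_cons, ih, h0, h0 (3 * t.2.2 + 1)]
      push_cast
      ring
  unfold tv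
  have h2 : ∀ r : List ℕ, (r.map fun k => ((x (3 * k + 3) : ℂ) + s * (e0 (3 * k + 3) : ℂ)) *
      ((bil (L.getD k [])).map fun t => (t.1 : ℂ) * (((x (3 * t.2.1 + 1) : ℂ) +
      s * (e0 (3 * t.2.1 + 1) : ℂ)) * ((x (3 * t.2.2 + 2) : ℂ) +
      s * (e0 (3 * t.2.2 + 2) : ℂ)))).sum).sum =
      (((r.map fun k => x (3 * k + 3) * ((bil (L.getD k [])).map fun t =>
        (t.1 : ℝ) * (x (3 * t.2.1 + 1) * x (3 * t.2.2 + 2))).sum).sum : ℝ) : ℂ) := by
    intro r
    induction r with
    | nil => simp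
    | cons k r ih =>
      rw [List.map_cons, List.map_cons, List.sum_cons, List.sum_cons, ih, h1, h0 (3 * k + 2)]
      push_cast
      ring
  exact h2 _

/-- The cubic form on the lines in the direction of the first unit vector. -/
theorem cubic_inst_line (K s₀ : ℤ) (n : ℕ) (L : List (List QT)) (x : ℕ → ℝ) (s : ℂ) :
    cubic (inst K s₀ n L) (fun i => (x i : ℂ) + s * (e0 i : ℂ)) =
      (((lv (lin K (others n L.length)) x : ℝ) : ℂ) + s) ^ 3 -
        (s₀ : ℂ) * (((lv (lin K (others n L.length)) x : ℝ) : ℂ) + s) *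
          ((nv (others n L.length) x : ℝ) : ℂ) + 2 * (s₀ : ℂ) * ((tv L x : ℝ) : ℂ) := by
  rw [cubic_inst, lv_line K (fun j hj => mem_others hj), nv_line (fun j hj => mem_others hj),
    tv_line]

/-- Hyperbolicity in the direction of the first unit vector. -/
theorem hyp_e0_iff {K s₀ : ℤ} (hs : 0 < s₀) (n : ℕ) (L : List (List QT)) :
    (∀ (x : ℕ → ℝ) (s : ℂ), cubic (inst K s₀ n L) (fun i => (x i : ℂ) + s * (e0 i : ℂ)) = 0 →
      s.im = 0) ↔
    ∀ x : ℕ → ℝ, 27 * tv L x ^ 2 ≤ (s₀ : ℝ) * nv (others n L.length) x ^ 3 := by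
  have hs' : (0 : ℝ) < s₀ := by exact_mod_cast hs
  have hd : ∀ N V : ℝ, disc 1 0 (-((s₀ : ℝ) * N)) (2 * s₀ * V) =
      4 * (s₀ : ℝ) ^ 2 * ((s₀ : ℝ) * N ^ 3 - 27 * V ^ 2) := by
    intro N V; unfold disc; ring
  have hd2 : ∀ N V : ℝ, 0 ≤ disc 1 0 (-((s₀ : ℝ) * N)) (2 * s₀ * V) ↔
      27 * V ^ 2 ≤ (s₀ : ℝ) * N ^ 3 := by
    intro N V
    rw [hd]
    constructor
    · intro h
      have := nonneg_of_mul_nonneg_right h (by positivity)
      linarith
    · intro h
      apply mul_nonneg (by positivity)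
      linarith
  refine forall_congr' fun x => ?_
  rw [← hd2, ← real_rooted_iff one_ne_zero]
  set t := lv (lin K (others n L.length)) x
  set N := nv (others n L.length) x
  set V := tv L x
  constructor
  · intro h s h0
    have h1 := h (s - (t : ℂ)) (by
      rw [cubic_inst_line, ← h0]
      push_cast
      ring)
    rwa [Complex.sub_im, Complex.ofReal_im, sub_zero] at h1
  · intro h s h0
    rw [cubic_inst_line] at h0
    have h1 := h ((t : ℂ) + s) (by
      rw [← h0]
      push_cast
      ring)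
    rwa [Complex.add_im, Complex.ofReal_im, zero_add] at h1

/-! ### The real inequality -/

theorem ip_range (m : ℕ) (a b : ℕ → ℝ) : ip m a b = ((List.range m).map fun i => a i * b i).sum :=
  rfl

theorem nv_others (n m : ℕ) (z : ℕ → ℝ) : nv (others n m) z =
    ip n (fun i => z (3 * i + 1)) (fun i => z (3 * i + 1)) +
    ip n (fun i => z (3 * i + 2)) (fun i => z (3 * i + 2)) +
    ip m (fun i => z (3 * i + 3)) (fun i => z (3 * i + 3)) := by
  unfold nv others ip
  rw [List.map_append, List.sum_append, List.map_map]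
  congr 1
  induction (List.range n) with
  | nil => simp
  | cons i l ih =>
    rw [List.flatMap_cons, List.map_append, List.sum_append, ih, List.map_cons, List.map_cons,
      List.sum_cons, List.sum_cons]
    simp only [List.map_cons, List.map_nil, List.sum_cons, List.sum_nil]
    ring

theorem tv_eq (L : List (List QT)) (z : ℕ → ℝ) : tv L z =
    ip L.length (fun k => z (3 * k + 3))
      (fun k => fev (fun i => z (3 * i + 1)) (fun i => z (3 * i + 2)) (L.getD k [])) := by
  unfold tv ip
  congr 1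
  apply List.map_congr_left
  intro k _
  change _ = z (3 * k + 3) * fev (fun i => z (3 * i + 1)) (fun i => z (3 * i + 2)) (L.getD k [])
  rw [← bv_bil]
  rfl

theorem ip_fev (L : List (List QT)) (x y : ℕ → ℝ) :
    ip L.length (fun k => fev x y (L.getD k [])) (fun k => fev x y (L.getD k [])) =
      (L.map fun f => fev x y f ^ 2).sum := by
  rw [ip_self_eq]
  exact sum_getD L le_rfl (fun f => fev x y f ^ 2) (by simp [fev])

/-- The arithmetic-geometric mean inequality for three numbers. -/
theorem amgm {a b c : ℝ} (ha : 0 ≤ a) (hb : 0 ≤ b) (hc : 0 ≤ c) :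
    27 * (a * b * c) ≤ (a + b + c) ^ 3 := by
  nlinarith [mul_nonneg ha (sq_nonneg (b - c)), mul_nonneg hb (sq_nonneg (c - a)),
    mul_nonneg hc (sq_nonneg (a - b)), mul_nonneg (add_nonneg (add_nonneg ha hb) hc)
    (sq_nonneg (a - b)), mul_nonneg (add_nonneg (add_nonneg ha hb) hc) (sq_nonneg (b - c)),
    mul_nonneg (add_nonneg (add_nonneg ha hb) hc) (sq_nonneg (c - a))]

theorem tv_bound_iff {s₀ : ℤ} (hs : 0 < s₀) {n : ℕ} {L : List (List QT)}
    (hL : ∀ f ∈ L, FOk n f) :
    (∀ x : ℕ → ℝ, 27 * tv L x ^ 2 ≤ (s₀ : ℝ) * nv (others n L.length) x ^ 3) ↔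
      ∀ x y : ℕ → ℝ, 0 ≤ BQ n s₀ L x y := by
  have hs' : (0 : ℝ) < s₀ := by exact_mod_cast hs
  constructor
  · intro h x y
    by_contra hneg
    push Not at hneg
    unfold BQ at hneg
    obtain ⟨x', y', hx, hy, hlt⟩ := normalise hL hs'.le (x := x) (y := y) (by linarith)
    rw [← Pool.Agent.TH925.CQ.sum_sq_eq] at hlt
    set Q := (L.map fun f => fev x' y' f ^ 2).sum with hQ
    have hQ0 : 0 < Q := by linarith
    have hsq : Real.sqrt Q ^ 2 = Q := Real.sq_sqrt hQ0.le
    have hsq0 : 0 < Real.sqrt Q := Real.sqrt_pos.2 hQ0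
    let z : ℕ → ℝ := fun j => if j % 3 = 1 then x' (j / 3) else if j % 3 = 2 then y' (j / 3)
      else (Real.sqrt Q)⁻¹ * fev x' y' (L.getD (j / 3 - 1) [])
    have z1 : (fun i => z (3 * i + 1)) = x' := by
      ext i
      have e1 : (3 * i + 1) % 3 = 1 := by omega
      have e2 : (3 * i + 1) / 3 = i := by omega
      simp only [z, e1, e2, if_true]
    have z2 : (fun i => z (3 * i + 2)) = y' := by
      ext i
      have e1 : (3 * i + 2) % 3 = 2 := by omega
      have e2 : (3 * i + 2) / 3 = i := by omega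
      simp only [z, e1, e2, if_true]
      norm_num
    have z3 : (fun i => z (3 * i + 3)) = fun k => (Real.sqrt Q)⁻¹ * fev x' y' (L.getD k []) := by
      ext i
      have e1 : (3 * i + 3) % 3 = 0 := by omega
      have e2 : (3 * i + 3) / 3 - 1 = i := by omega
      simp only [z, e1, e2]
      norm_num
    have h1 := h z
    rw [tv_eq, nv_others, z1, z2, z3, ip_self_eq n x', ip_self_eq n y', hx, hy,
      Pool.Agent.TH925.CQ.ip_smul, ip_fev, ← hQ] at h1
    have h2 : ip L.length (fun k => (Real.sqrt Q)⁻¹ * fev x' y' (L.getD k []))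
        (fun k => fev x' y' (L.getD k [])) = (Real.sqrt Q)⁻¹ * Q := by
      rw [hQ, ← ip_fev]
      unfold ip
      rw [← List.sum_map_mul_left]
      congr 1
      apply List.map_congr_left
      intro k _
      ring
    rw [h2, inv_pow, hsq, inv_mul_cancel₀ hQ0.ne', mul_pow, inv_pow, hsq, sq Q,
      inv_mul_cancel_left₀ hQ0.ne'] at h1
    norm_num at h1
    linarith
  · intro h z
    rw [tv_eq, nv_others]
    set x := fun i => z (3 * i + 1)
    set y := fun i => z (3 * i + 2)
    set w := fun k => z (3 * k + 3)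
    have h1 := h x y
    unfold BQ at h1
    have h2 := Pool.Agent.TH925.CQ.ip_sq_le L.length w (fun k => fev x y (L.getD k []))
    rw [ip_fev] at h2
    have hX := ip_self_nonneg n x
    have hY := ip_self_nonneg n y
    have hW := ip_self_nonneg L.length w
    have h3 := amgm hX hY hW
    have h4 : ip L.length w w * (L.map fun f => fev x y f ^ 2).sum ≤
        ip L.length w w * ((s₀ : ℝ) * (ip n x x * ip n y y)) :=
      mul_le_mul_of_nonneg_left (by linarith) hW
    have h5 := mul_le_mul_of_nonneg_left h3 hs'.le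
    nlinarith

end Pool.Agent.TH925.HC
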