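import Pool.Agent.TH925.HC.Inst

/-!
# Hyperbolicity and stability of the cubic forms of a system
-/

namespace Pool.Agent.TH925.HC

open Filter Topology
open Pool.Agent.NPC Pool.Agent.NPC.ER Pool.Agent.H78R3.TSV Pool.Agent.TH662.SN
open Pool.Agent.TH925.CQ (ip bil bv bv_bil BQ ip_eq ip_self_eq ip_self_nonneg normalise lf th
  lf_ok sat_iff_neg)

/-- A criterion for stability in terms of real vectors. -/
theorem stable_iff (L : List Mon) : Stable L ↔ ∀ x y : ℕ → ℝ, (∀ i, 0 < y i) →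
    cubic L y ≠ 0 ∧ 0 ≤ disc (cubic L y) (mix L x y) (mix L y x) (cubic L x) := by
  constructor
  · intro h x y hy
    have h1 : cubic L y ≠ 0 := by
      intro h0
      apply h (fun i => Complex.I * (y i : ℂ))
      · intro i
        simpa using hy i
      · rw [cubic_smul, cubic_ofReal, h0]
        simp
    refine ⟨h1, ?_⟩
    rw [← hyperbolic_line_iff L h1]
    apply real_of_upper
    intro s hs
    apply h
    intro i
    rw [Complex.add_im, Complex.ofReal_im, zero_add, Complex.mul_im, Complex.ofReal_im,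
      Complex.ofReal_re, mul_zero, zero_add]
    exact mul_pos hs (hy i)
  · intro h z hz h0
    obtain ⟨h1, h2⟩ := h (fun i => (z i).re) (fun i => (z i).im) hz
    rw [← hyperbolic_line_iff L h1] at h2
    have h3 := h2 Complex.I (by
      rw [← h0]
      congr 1
      ext i
      rw [mul_comm, Complex.re_add_im])
    simp at h3

/-- The value at the first unit vector. -/
theorem cubic_inst_e0 (K s₀ : ℤ) (n : ℕ) (L : List (List QT)) : cubic (inst K s₀ n L) e0 = 1 := by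
  have h1 := cubic_inst_line K s₀ n L (fun _ => 0) 1
  have h2 : (fun i => ((0 : ℝ) : ℂ) + 1 * (e0 i : ℂ)) = fun i => ((e0 i : ℝ) : ℂ) := by
    ext i; simp
  rw [h2, cubic_ofReal] at h1
  have h3 : lv (lin K (others n L.length)) (fun _ => (0 : ℝ)) = 0 := by
    unfold lv
    apply List.sum_eq_zero
    intro r hr
    obtain ⟨a, _, rfl⟩ := List.mem_map.1 hr
    simp
  have h4 : nv (others n L.length) (fun _ => (0 : ℝ)) = 0 := by
    unfold nv
    apply List.sum_eq_zero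
    intro r hr
    obtain ⟨a, _, rfl⟩ := List.mem_map.1 hr
    simp
  have h5 : tv L (fun _ => (0 : ℝ)) = 0 := by
    unfold tv
    apply List.sum_eq_zero
    intro r hr
    obtain ⟨a, _, rfl⟩ := List.mem_map.1 hr
    simp
  rw [h3, h4, h5] at h1
  simp at h1
  exact_mod_cast h1

/-- Stability of the form implies hyperbolicity in the direction of the first unit vector. -/
theorem hyp_of_stable {K s₀ : ℤ} {n : ℕ} {L : List (List QT)} (h : Stable (inst K s₀ n L))
    (x : ℕ → ℝ) (s : ℂ) (hs : cubic (inst K s₀ n L) (fun i => (x i : ℂ) + s * (e0 i : ℂ)) = 0) :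
    s.im = 0 := by
  set p := inst K s₀ n L with hp
  have hE : cubic p e0 ≠ 0 := by rw [hp, cubic_inst_e0]; norm_num
  revert s
  rw [hyperbolic_line_iff p hE]
  have h1 := (stable_iff p).1 h
  let v : ℝ → ℕ → ℝ := fun ε i => e0 i + ε
  have hv : ∀ i, Continuous fun ε => v ε i := fun i => by
    simp only [v]
    fun_prop
  have c1 := continuous_cubic p hv
  have c2 := continuous_mix2 p hv x
  have c3 := continuous_mix1 p hv x
  have hcont : Continuous fun ε => disc (cubic p (v ε)) (mix p x (v ε)) (mix p (v ε) x)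
      (cubic p x) := by
    unfold disc
    fun_prop
  have hpos : ∀ ε : ℝ, 0 < ε → ∀ i, 0 < v ε i := by
    intro ε hε i
    simp only [v, e0]
    split_ifs <;> linarith
  have hlim : Tendsto (fun ε => disc (cubic p (v ε)) (mix p x (v ε)) (mix p (v ε) x) (cubic p x))
      (𝓝[>] 0) (𝓝 (disc (cubic p (v 0)) (mix p x (v 0)) (mix p (v 0) x) (cubic p x))) :=
    (hcont.tendsto 0).mono_left nhdsWithin_le_nhds
  have h2 := ge_of_tendsto hlim (eventually_nhdsWithin_of_forall fun ε hε =>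
    (h1 x (v ε) (hpos ε hε)).2)
  have h3 : v 0 = e0 := by ext i; simp [v]
  rwa [h3] at h2

theorem list_sum_nonneg {J : List ℕ} {a : ℕ → ℝ} (ha : ∀ i, 0 < a i) : 0 ≤ (J.map a).sum := by
  apply List.sum_nonneg
  intro r hr
  obtain ⟨j, _, rfl⟩ := List.mem_map.1 hr
  exact (ha j).le

theorem nv_le_sq {J : List ℕ} {a : ℕ → ℝ} (ha : ∀ i, 0 < a i) : nv J a ≤ (J.map a).sum ^ 2 := by
  unfold nv
  induction J with
  | nil => simp
  | cons j J ih =>
    rw [List.map_cons, List.map_cons, List.sum_cons, List.sum_cons]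
    have h1 := list_sum_nonneg (J := J) ha
    have h2 := ha j
    nlinarith [mul_nonneg h2.le h1]

theorem nv_nonneg (J : List ℕ) (a : ℕ → ℝ) : 0 ≤ nv J a := by
  unfold nv
  apply List.sum_nonneg
  intro r hr
  obtain ⟨j, _, rfl⟩ := List.mem_map.1 hr
  exact mul_self_nonneg _

theorem lv_lin (K : ℤ) (J : List ℕ) (a : ℕ → ℝ) :
    lv (lin K J) a = a 0 + K * (J.map a).sum := by
  unfold lv lin
  rw [List.map_cons, List.sum_cons, List.map_map]
  have h1 : (J.map ((fun b : ℤ × ℕ => (b.1 : ℝ) * a b.2) ∘ fun j => (K, j))).sum =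
      (K : ℝ) * (J.map a).sum := by
    rw [← List.sum_map_mul_left]
    rfl
  rw [h1]
  simp

/-- The positive orthant is contained in the hyperbolicity cone. -/
theorem pos_of_cone {r : ℝ} (hr : 0 ≤ r) {σ : ℕ} {n : ℕ} {L : List (List QT)}
    (hB : ∀ x : ℕ → ℝ, 27 * tv L x ^ 2 ≤ (((σ ^ 2 : ℕ) : ℤ) : ℝ) * nv (others n L.length) x ^ 3)
    {a : ℕ → ℝ} (ha : ∀ i, 0 < a i) :
    cubic (inst ((2 * σ : ℕ) : ℤ) ((σ ^ 2 : ℕ) : ℤ) n L) (fun i => a i + r * e0 i) ≠ 0 := by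
  -- transfer to the complex numbers
  have h1 := cubic_inst_line ((2 * σ : ℕ) : ℤ) ((σ ^ 2 : ℕ) : ℤ) n L a (r : ℂ)
  have h2 : (fun i => (a i : ℂ) + (r : ℂ) * (e0 i : ℂ)) = fun i => ((a i + r * e0 i : ℝ) : ℂ) := by
    ext i; push_cast; rfl
  rw [h2, cubic_ofReal] at h1
  have h3 := hB a
  set t := lv (lin ((2 * σ : ℕ) : ℤ) (others n L.length)) a with ht
  set N := nv (others n L.length) a with hN
  set V := tv L a with hV
  have h4 : cubic (inst ((2 * σ : ℕ) : ℤ) ((σ ^ 2 : ℕ) : ℤ) n L) (fun i => a i + r * e0 i) =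
      (t + r) ^ 3 - (((σ ^ 2 : ℕ) : ℤ) : ℝ) * (t + r) * N + 2 * (((σ ^ 2 : ℕ) : ℤ) : ℝ) * V := by
    exact_mod_cast h1
  rw [h4]
  have e1 : (((σ ^ 2 : ℕ) : ℤ) : ℝ) = (σ : ℝ) ^ 2 := by push_cast; ring
  rw [e1] at h3 ⊢
  have hA := list_sum_nonneg (J := others n L.length) ha
  have hNA := nv_le_sq (J := others n L.length) ha
  rw [← hN] at hNA
  have hN0 := nv_nonneg (others n L.length) a
  rw [← hN] at hN0
  have hτ : 2 * (σ : ℝ) * ((others n L.length).map a).sum < t + r := by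
    rw [ht, lv_lin]
    have := ha 0
    push_cast
    linarith
  set A := ((others n L.length).map a).sum with hAdef
  set τ := t + r with hτdef
  have hσ : (0 : ℝ) ≤ σ := Nat.cast_nonneg _
  have hσA : 0 ≤ 2 * (σ : ℝ) * A := by positivity
  have hτ0 : 0 < τ := lt_of_le_of_lt hσA hτ
  have hM : 4 * ((σ : ℝ) ^ 2 * N) < τ ^ 2 := by
    have h5 : (2 * (σ : ℝ) * A) ^ 2 < τ ^ 2 := by nlinarith
    have h6 : (σ : ℝ) ^ 2 * N ≤ (σ : ℝ) ^ 2 * A ^ 2 := mul_le_mul_of_nonneg_left hNA (by positivity)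
    nlinarith
  set M := (σ : ℝ) ^ 2 * N with hMdef
  have hM0 : 0 ≤ M := by positivity
  -- the trilinear term
  have hV2 : 27 * (2 * (σ : ℝ) ^ 2 * V) ^ 2 ≤ 4 * M ^ 3 := by
    have h5 := mul_le_mul_of_nonneg_left h3 (by positivity : (0 : ℝ) ≤ 4 * (σ : ℝ) ^ 4)
    have h6 : 4 * (σ : ℝ) ^ 4 * (27 * V ^ 2) = 27 * (2 * (σ : ℝ) ^ 2 * V) ^ 2 := by ring
    have h7 : 4 * (σ : ℝ) ^ 4 * ((σ : ℝ) ^ 2 * N ^ 3) = 4 * M ^ 3 := by rw [hMdef]; ring
    linarith
  have hM3 : M ^ 3 ≤ (τ ^ 2 / 4) ^ 3 := pow_le_pow_left₀ hM0 (by linarith) 3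
  have hsum : (3 / 4) * τ ^ 3 ≤ τ ^ 3 - (σ : ℝ) ^ 2 * τ * N := by
    have h5 : (σ : ℝ) ^ 2 * τ * N = τ * M := by rw [hMdef]; ring
    rw [h5]
    nlinarith
  intro h0
  have h5 : (3 / 4) * τ ^ 3 ≤ -(2 * (σ : ℝ) ^ 2 * V) := by linarith
  have h6 : 0 < (3 / 4) * τ ^ 3 := by positivity
  have h7 : ((3 / 4) * τ ^ 3) ^ 2 ≤ (2 * (σ : ℝ) ^ 2 * V) ^ 2 := by nlinarith
  have h8 : 0 < τ ^ 6 := by positivity
  have h9 : (τ ^ 2 / 4) ^ 3 = τ ^ 6 / 64 := by ring
  have h10 : ((3 / 4) * τ ^ 3) ^ 2 = 9 / 16 * τ ^ 6 := by ring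
  rw [h9] at hM3
  rw [h10] at h7
  linarith

/-- Stability is equivalent to the real inequality. -/
theorem stable_inst_iff {σ : ℕ} (hσ : 0 < σ) {n : ℕ} {L : List (List QT)}
    (hL : ∀ f ∈ L, FOk n f) : Stable (inst ((2 * σ : ℕ) : ℤ) ((σ ^ 2 : ℕ) : ℤ) n L) ↔
      ∀ x y : ℕ → ℝ, 0 ≤ BQ n ((σ ^ 2 : ℕ) : ℤ) L x y := by
  have hs : (0 : ℤ) < ((σ ^ 2 : ℕ) : ℤ) := by positivity
  rw [← tv_bound_iff hs hL]
  constructor
  · intro h
    exact (hyp_e0_iff (K := ((2 * σ : ℕ) : ℤ)) hs n L).1 fun x s h0 => hyp_of_stable h x s h0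
  · intro h z hz
    have he := (hyp_e0_iff (K := ((2 * σ : ℕ) : ℤ)) hs n L).2 h
    have h1 := garding (L := inst ((2 * σ : ℕ) : ℤ) ((σ ^ 2 : ℕ) : ℤ) n L)
      (x := fun i => (z i).re) (e := e0) (a := fun i => (z i).im) he
      (by rw [cubic_inst_e0]; norm_num) (fun r hr => pos_of_cone hr h hz)
    have h2 : (fun i => (((z i).re : ℝ) : ℂ) + Complex.I * (((z i).im : ℝ) : ℂ)) = z := by
      ext i
      rw [mul_comm, Complex.re_add_im]
    rwa [h2] at h1

/-- Hyperbolicity is equivalent to the real inequality. -/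
theorem hyperbolic_inst_iff {s₀ : ℤ} (hs : 0 < s₀) {n : ℕ} {L : List (List QT)}
    (hL : ∀ f ∈ L, FOk n f) : Hyperbolic (inst 0 s₀ n L, [1]) ↔
      ∀ x y : ℕ → ℝ, 0 ≤ BQ n s₀ L x y := by
  rw [← tv_bound_iff hs hL, ← hyp_e0_iff (K := 0) hs n L]
  have hd : ∀ i, ((dir [1] i : ℤ) : ℝ) = e0 i := by
    intro i
    rcases i with _ | i
    · simp [dir, e0]
    · simp [dir, e0]
  have hd' : ∀ i, ((dir [1] i : ℤ) : ℂ) = ((e0 i : ℝ) : ℂ) := by
    intro i
    rw [← hd]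
    push_cast
    rfl
  unfold Hyperbolic
  simp only [hd, hd']
  constructor
  · exact fun h => h.2
  · intro h
    refine ⟨?_, h⟩
    have := cubic_inst_e0 0 s₀ n L
    rw [show (fun i => e0 i) = e0 from rfl, this]
    norm_num

/-- The square root of the threshold. -/
def rt (S : List ER.Con) : ℕ := 48 * (18 * (hsysU (gsys S)).length)

theorem rt_pos (S : List ER.Con) : 0 < rt S := by
  have : 0 < (hsysU (gsys S)).length := List.length_pos_iff.2 (hsysU_ne_nil (gsys_ne_nil S))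
  unfold rt
  omega

theorem th_eq (S : List ER.Con) : th S = rt S ^ 2 := rfl

/-- The instance of the hyperbolicity problem. -/
def instH (S : List ER.Con) : List Mon × List ℤ :=
  (inst 0 ((rt S ^ 2 : ℕ) : ℤ) (hn (gsys S)) (lf S), [1])

/-- The instance of the stability problem. -/
def instS (S : List ER.Con) : List Mon :=
  inst ((2 * rt S : ℕ) : ℤ) ((rt S ^ 2 : ℕ) : ℤ) (hn (gsys S)) (lf S)

theorem sat_iff_not_hyp (S : List ER.Con) : Sat S ↔ ¬ Hyperbolic (instH S) := by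
  have hp := rt_pos S
  unfold instH
  rw [hyperbolic_inst_iff (by positivity) (lf_ok S), sat_iff_neg, th_eq]
  push Not
  rfl

theorem sat_iff_not_stable (S : List ER.Con) : Sat S ↔ ¬ Stable (instS S) := by
  have hp := rt_pos S
  unfold instS
  rw [stable_inst_iff hp (lf_ok S), sat_iff_neg, th_eq]
  push Not
  rfl

end Pool.Agent.TH925.HC
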