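import Pool.Agent.TH925.HC.Stab
import Pool.Agent.TH925.CQ.Time

/-!
# The complexity of hyperbolicity and stability of cubic forms
-/

namespace Pool.Agent.NPC.TH925HC

open Pool.Agent.NPC Pool.Agent.NPC.ER Pool.Agent.H78R3.TSV Pool.Agent.TH662.SN
  Pool.Agent.NPC.H78TSV Pool.Agent.NPC.TH662SN Pool.Agent.TH925.HC
open Pool.Agent.TH925.CQ (bil lf th)
open Pool.Agent.NPC.TH925CQ (poly_bil poly_lf)

section

variable {α : Type} [TEnc α]

theorem poly_others {n m : α → ℕ} (hn : UPoly n) (hm : UPoly m) :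
    Poly (fun a => others (n a) (m a)) := by
  refine Poly.append ?_ ?_
  · refine Poly.flatMap (F := fun (_ : α) (i : ℕ) => [3 * i + 1, 3 * i + 2]) hn.range ?_
    have h : Poly (fun p : α × ℕ => 3 * p.2) := Poly.mul (Poly.const 3) (Poly.snd Poly.id)
    exact Poly.cons (Poly.add h (Poly.const 1)) (Poly.cons (Poly.add h (Poly.const 2))
      (Poly.const []))
  · exact Poly.map (F := fun (_ : α) (k : ℕ) => 3 * k + 3) hm.range
      (Poly.add (Poly.mul (Poly.const 3) (Poly.snd Poly.id)) (Poly.const 3))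

theorem poly_lin {K : α → ℤ} {J : α → List ℕ} (hK : Poly K) (hJ : Poly J) :
    Poly (fun a => lin (K a) (J a)) :=
  Poly.cons (Poly.const (1, 0)) (Poly.map (F := fun a (j : ℕ) => (K a, j)) hJ
    (Poly.pair (hK.comp (Poly.fst Poly.id)) (Poly.snd Poly.id)))

theorem poly_cubeM {l : α → List (ℤ × ℕ)} (hl : Poly l) : Poly (fun a => cubeM (l a)) := by
  refine Poly.flatMap (F := fun a (b : ℤ × ℕ) => (l a).flatMap fun c => (l a).map fun d =>
    ((b.1 * c.1 * d.1, b.2, c.2, d.2) : Mon)) hl ?_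
  refine Poly.flatMap (F := fun (p : α × (ℤ × ℕ)) (c : ℤ × ℕ) => (l p.1).map fun d =>
    ((p.2.1 * c.1 * d.1, p.2.2, c.2, d.2) : Mon)) (hl.comp (Poly.fst Poly.id)) ?_
  refine Poly.map (F := fun (p : (α × (ℤ × ℕ)) × (ℤ × ℕ)) (d : ℤ × ℕ) =>
    ((p.1.2.1 * p.2.1 * d.1, p.1.2.2, p.2.2, d.2) : Mon))
    (hl.comp (Poly.fst (Poly.fst Poly.id))) ?_
  have a1 : Poly (fun p : ((α × (ℤ × ℕ)) × (ℤ × ℕ)) × (ℤ × ℕ) => p.1.1.2) :=
    Poly.snd (Poly.fst (Poly.fst Poly.id))
  have a2 : Poly (fun p : ((α × (ℤ × ℕ)) × (ℤ × ℕ)) × (ℤ × ℕ) => p.1.2) :=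
    Poly.snd (Poly.fst Poly.id)
  have a3 : Poly (fun p : ((α × (ℤ × ℕ)) × (ℤ × ℕ)) × (ℤ × ℕ) => p.2) := Poly.snd Poly.id
  exact Poly.pair (Poly.imul (Poly.imul (Poly.fst a1) (Poly.fst a2)) (Poly.fst a3))
    (Poly.pair (Poly.snd a1) (Poly.pair (Poly.snd a2) (Poly.snd a3)))

theorem poly_quadM {s : α → ℤ} {l : α → List (ℤ × ℕ)} {J : α → List ℕ} (hs : Poly s)
    (hl : Poly l) (hJ : Poly J) : Poly (fun a => quadM (s a) (l a) (J a)) := by
  refine Poly.flatMap (F := fun a (b : ℤ × ℕ) => (J a).map fun j =>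
    ((-(s a * b.1), b.2, j, j) : Mon)) hl ?_
  refine Poly.map (F := fun (p : α × (ℤ × ℕ)) (j : ℕ) =>
    ((-(s p.1 * p.2.1), p.2.2, j, j) : Mon)) (hJ.comp (Poly.fst Poly.id)) ?_
  have a1 : Poly (fun p : (α × (ℤ × ℕ)) × ℕ => s p.1.1) := hs.comp (Poly.fst (Poly.fst Poly.id))
  have a2 : Poly (fun p : (α × (ℤ × ℕ)) × ℕ => p.1.2) := Poly.snd (Poly.fst Poly.id)
  have a3 : Poly (fun p : (α × (ℤ × ℕ)) × ℕ => p.2) := Poly.snd Poly.id
  exact Poly.pair (Poly.ineg (Poly.imul a1 (Poly.fst a2)))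
    (Poly.pair (Poly.snd a2) (Poly.pair a3 a3))

theorem poly_triM {s : α → ℤ} {L : α → List (List QT)} (hs : Poly s) (hL : Poly L) :
    Poly (fun a => triM (s a) (L a)) := by
  refine Poly.flatMap (F := fun a (k : ℕ) => (bil ((L a).getD k [])).map fun t =>
    ((2 * s a * t.1, 3 * k + 3, 3 * t.2.1 + 1, 3 * t.2.2 + 2) : Mon)) (UPoly.length hL).range ?_
  refine Poly.map (F := fun (p : α × ℕ) (t : QT) =>
    ((2 * s p.1 * t.1, 3 * p.2 + 3, 3 * t.2.1 + 1, 3 * t.2.2 + 2) : Mon))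
    (poly_bil (Poly.getD (hL.comp (Poly.fst Poly.id)) (Poly.snd Poly.id) (Poly.const []))) ?_
  have a1 : Poly (fun p : (α × ℕ) × QT => s p.1.1) := hs.comp (Poly.fst (Poly.fst Poly.id))
  have a2 : Poly (fun p : (α × ℕ) × QT => p.1.2) := Poly.snd (Poly.fst Poly.id)
  have a3 : Poly (fun p : (α × ℕ) × QT => p.2) := Poly.snd Poly.id
  have three : ∀ {g : (α × ℕ) × QT → ℕ}, Poly g → Poly (fun r => 3 * g r) := fun hg =>
    Poly.mul (Poly.const 3) hg
  exact Poly.pair (Poly.imul (Poly.imul (Poly.const 2) a1) (Poly.fst a3))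
    (Poly.pair (Poly.add (three a2) (Poly.const 3))
      (Poly.pair (Poly.add (three (Poly.fst (Poly.snd a3))) (Poly.const 1))
        (Poly.add (three (Poly.snd (Poly.snd a3))) (Poly.const 2))))

theorem poly_inst {K s : α → ℤ} {n : α → ℕ} {L : α → List (List QT)} (hK : Poly K) (hs : Poly s)
    (hn : UPoly n) (hL : Poly L) : Poly (fun a => inst (K a) (s a) (n a) (L a)) := by
  have hJ := poly_others hn (UPoly.length hL)
  have hl := poly_lin hK hJ
  exact Poly.append (poly_cubeM hl) (Poly.append (poly_quadM hs hl hJ) (poly_triM hs hL))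

theorem poly_rt {S : α → List ER.Con} (hS : Poly S) : Poly (fun a => rt (S a)) :=
  Poly.mul (Poly.const 48) (Poly.mul (Poly.const 18) (Poly.length (poly_hsysU (poly_gsys hS))))

theorem poly_rt2 {S : α → List ER.Con} (hS : Poly S) : Poly (fun a => rt (S a) ^ 2) :=
  (Poly.mul (poly_rt hS) (poly_rt hS)).congr fun a => (sq _).symm

theorem poly_instH {S : α → List ER.Con} (hS : Poly S) : Poly (fun a => instH (S a)) :=
  Poly.pair (poly_inst (Poly.const 0) (Poly.natCast (poly_rt2 hS)) (upoly_hn (poly_gsys hS))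
    (poly_lf hS)) (Poly.const [1])

theorem poly_instS {S : α → List ER.Con} (hS : Poly S) : Poly (fun a => instS (S a)) :=
  poly_inst (Poly.natCast (Poly.mul (Poly.const 2) (poly_rt hS)))
    (Poly.natCast (poly_rt2 hS)) (upoly_hn (poly_gsys hS)) (poly_lf hS)

theorem hardH : ARHard (lang Hyperbolic) :=
  ARHard.of_sys (poly_instH Poly.id) sat_iff_not_hyp

theorem hardS : ARHard (lang Stable) :=
  ARHard.of_sys (poly_instS Poly.id) sat_iff_not_stable

/-! ### Membership -/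

/-- The value of the form as a term. -/
def cubT (L : List Mon) (z : ℕ → Tm) : Tm :=
  sumTm (L.map fun m => Tm.mul (intTm m.1) (Tm.mul (Tm.mul (z m.2.1) (z m.2.2.1)) (z m.2.2.2)))

/-- The mixed terms as a term. -/
def mixT (L : List Mon) (x y : ℕ → Tm) : Tm :=
  sumTm (L.map fun m => Tm.mul (intTm m.1) (Tm.add (Tm.add
    (Tm.mul (x m.2.1) (Tm.mul (y m.2.2.1) (y m.2.2.2)))
    (Tm.mul (Tm.mul (y m.2.1) (x m.2.2.1)) (y m.2.2.2)))
    (Tm.mul (Tm.mul (y m.2.1) (y m.2.2.1)) (x m.2.2.2))))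

/-- The discriminant as a term. -/
def discT (a b c d : Tm) : Tm :=
  Tm.add (Tm.mul (Tm.mul b b) (Tm.mul c c))
    (Tm.add (Tm.mul (intTm (-4)) (Tm.mul a (Tm.mul c (Tm.mul c c))))
      (Tm.add (Tm.mul (intTm (-4)) (Tm.mul d (Tm.mul b (Tm.mul b b))))
        (Tm.add (Tm.mul (intTm (-27)) (Tm.mul (Tm.mul a a) (Tm.mul d d)))
          (Tm.mul (intTm 18) (Tm.mul (Tm.mul a b) (Tm.mul c d))))))

theorem eval_cubT (v : ℕ → ℝ) (L : List Mon) (z : ℕ → Tm) :
    (cubT L z).eval v = cubic L (fun i => (z i).eval v) := by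
  unfold cubT cubic
  rw [eval_sumTm, List.map_map]
  congr 1
  apply List.map_congr_left
  intro m _
  simp only [Function.comp, Tm.eval, eval_intTm, mev]

theorem eval_mixT (v : ℕ → ℝ) (L : List Mon) (x y : ℕ → Tm) :
    (mixT L x y).eval v = mix L (fun i => (x i).eval v) (fun i => (y i).eval v) := by
  unfold mixT mix
  rw [eval_sumTm, List.map_map]
  congr 1
  apply List.map_congr_left
  intro m _
  simp only [Function.comp, Tm.eval, eval_intTm]

theorem eval_discT (v : ℕ → ℝ) (a b c d : Tm) :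
    (discT a b c d).eval v = disc (a.eval v) (b.eval v) (c.eval v) (d.eval v) := by
  unfold discT disc
  simp only [Tm.eval, eval_intTm]
  push_cast
  ring

/-- The direction as terms. -/
def dirT (e : List ℤ) (i : ℕ) : Tm := intTm (dir e i)

/-- The formula which says that the form is not hyperbolic. -/
def hypF (q : List Mon × List ℤ) : Fm :=
  Fm.or (Fm.eq (cubT q.1 (dirT q.2)) Tm.zero)
    (Fm.lt (discT (cubT q.1 (dirT q.2)) (mixT q.1 Tm.var (dirT q.2))
      (mixT q.1 (dirT q.2) Tm.var) (cubT q.1 Tm.var)) Tm.zero)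

theorem hyp_correct (q : List Mon × List ℤ) : ¬ Hyperbolic q ↔ ETR (hypF q) := by
  have e1 : ∀ v : ℕ → ℝ, (fun i => (dirT q.2 i).eval v) = fun i => ((dir q.2 i : ℤ) : ℝ) :=
    fun v => funext fun i => eval_intTm v _
  have e3 : ∀ i : ℕ, ((dir q.2 i : ℤ) : ℂ) = (((dir q.2 i : ℤ) : ℝ) : ℂ) := fun i => by push_cast; rfl
  have h1 : ∀ v : ℕ → ℝ, (hypF q).Holds v ↔ (cubic q.1 (fun i => ((dir q.2 i : ℤ) : ℝ)) = 0 ∨
      disc (cubic q.1 (fun i => ((dir q.2 i : ℤ) : ℝ))) (mix q.1 v (fun i => ((dir q.2 i : ℤ) : ℝ)))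
        (mix q.1 (fun i => ((dir q.2 i : ℤ) : ℝ)) v) (cubic q.1 v) < 0) := by
    intro v
    unfold hypF
    simp only [Fm.Holds, eval_cubT, eval_mixT, eval_discT, e1, Tm.eval]
  unfold ETR
  simp only [h1]
  unfold Hyperbolic
  by_cases h0 : cubic q.1 (fun i => ((dir q.2 i : ℤ) : ℝ)) = 0
  · constructor
    · intro _
      exact ⟨fun _ => 0, Or.inl h0⟩
    · rintro _ ⟨h2, _⟩
      exact h2 h0
  · simp only [e3]
    have h2 : (∀ (x : ℕ → ℝ) (s : ℂ), cubic q.1 (fun i => (x i : ℂ) +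
        s * (((dir q.2 i : ℤ) : ℝ) : ℂ)) = 0 → s.im = 0) ↔ ∀ x : ℕ → ℝ,
        0 ≤ disc (cubic q.1 (fun i => ((dir q.2 i : ℤ) : ℝ)))
          (mix q.1 x (fun i => ((dir q.2 i : ℤ) : ℝ)))
          (mix q.1 (fun i => ((dir q.2 i : ℤ) : ℝ)) x) (cubic q.1 x) :=
      forall_congr' fun x => hyperbolic_line_iff q.1 h0 x
    rw [h2]
    simp only [h0, false_or, ne_eq, not_false_eq_true, true_and]
    push Not
    rfl

/-- The formula which says that the form is not stable; the vectors `x`, `y` are given by the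
variables `2 i` and `2 i + 1`. -/
def stabF (L : List Mon) : Fm :=
  Fm.and (H612.conj (L.map fun m => Fm.and (Fm.lt Tm.zero (Tm.var (2 * m.2.1 + 1)))
      (Fm.and (Fm.lt Tm.zero (Tm.var (2 * m.2.2.1 + 1)))
        (Fm.lt Tm.zero (Tm.var (2 * m.2.2.2 + 1))))))
    (Fm.or (Fm.eq (cubT L fun i => Tm.var (2 * i + 1)) Tm.zero)
      (Fm.lt (discT (cubT L fun i => Tm.var (2 * i + 1))
        (mixT L (fun i => Tm.var (2 * i)) fun i => Tm.var (2 * i + 1))
        (mixT L (fun i => Tm.var (2 * i + 1)) fun i => Tm.var (2 * i))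
        (cubT L fun i => Tm.var (2 * i))) Tm.zero))

theorem cubic_congr {L : List Mon} {y y' : ℕ → ℝ}
    (h : ∀ m ∈ L, y m.2.1 = y' m.2.1 ∧ y m.2.2.1 = y' m.2.2.1 ∧ y m.2.2.2 = y' m.2.2.2) :
    cubic L y = cubic L y' := by
  unfold cubic
  congr 1
  apply List.map_congr_left
  intro m hm
  obtain ⟨h1, h2, h3⟩ := h m hm
  unfold mev
  rw [h1, h2, h3]

theorem mix_congr {L : List Mon} {y y' : ℕ → ℝ} (x : ℕ → ℝ)
    (h : ∀ m ∈ L, y m.2.1 = y' m.2.1 ∧ y m.2.2.1 = y' m.2.2.1 ∧ y m.2.2.2 = y' m.2.2.2) :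
    mix L x y = mix L x y' ∧ mix L y x = mix L y' x := by
  unfold mix
  constructor <;>
  · congr 1
    apply List.map_congr_left
    intro m hm
    obtain ⟨h1, h2, h3⟩ := h m hm
    rw [h1, h2, h3]

theorem stab_correct (L : List Mon) : ¬ Stable L ↔ ETR (stabF L) := by
  have h1 : ∀ v : ℕ → ℝ, (stabF L).Holds v ↔ ((∀ m ∈ L, 0 < v (2 * m.2.1 + 1) ∧
      0 < v (2 * m.2.2.1 + 1) ∧ 0 < v (2 * m.2.2.2 + 1)) ∧
      (cubic L (fun i => v (2 * i + 1)) = 0 ∨
      disc (cubic L fun i => v (2 * i + 1)) (mix L (fun i => v (2 * i)) fun i => v (2 * i + 1))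
        (mix L (fun i => v (2 * i + 1)) fun i => v (2 * i)) (cubic L fun i => v (2 * i)) < 0)) := by
    intro v
    unfold stabF
    simp only [Fm.Holds, eval_cubT, eval_mixT, eval_discT, Tm.eval, H612.holds_conj,
      List.mem_map, forall_exists_index, and_imp, forall_apply_eq_imp_iff₂]
  unfold ETR
  simp only [h1]
  rw [stable_iff]
  push Not
  constructor
  · rintro ⟨x, y, hy, h2⟩
    refine ⟨fun k => if k % 2 = 0 then x (k / 2) else y (k / 2), ?_⟩
    have e1 : ∀ i, (if (2 * i + 1) % 2 = 0 then x ((2 * i + 1) / 2) else y ((2 * i + 1) / 2)) =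
        y i := by
      intro i
      have a1 : (2 * i + 1) % 2 = 1 := by omega
      have a2 : (2 * i + 1) / 2 = i := by omega
      rw [a1, a2]; simp
    have e2 : ∀ i, (if (2 * i) % 2 = 0 then x ((2 * i) / 2) else y ((2 * i) / 2)) = x i := by
      intro i
      have a1 : (2 * i) % 2 = 0 := by omega
      have a2 : (2 * i) / 2 = i := by omega
      rw [a1, a2]; simp
    simp only [e1, e2]
    refine ⟨fun m _ => ⟨hy _, hy _, hy _⟩, ?_⟩
    by_cases h3 : cubic L y = 0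
    · exact Or.inl h3
    · exact Or.inr (h2 h3)
  · rintro ⟨v, hpos, h2⟩
    let y : ℕ → ℝ := fun i => if 0 < v (2 * i + 1) then v (2 * i + 1) else 1
    have hy : ∀ i, 0 < y i := by
      intro i
      simp only [y]
      split_ifs with h3
      · exact h3
      · exact one_pos
    have hc : ∀ m ∈ L, y m.2.1 = v (2 * m.2.1 + 1) ∧ y m.2.2.1 = v (2 * m.2.2.1 + 1) ∧
        y m.2.2.2 = v (2 * m.2.2.2 + 1) := by
      intro m hm
      obtain ⟨a1, a2, a3⟩ := hpos m hm
      simp only [y]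
      rw [if_pos a1, if_pos a2, if_pos a3]
      exact ⟨rfl, rfl, rfl⟩
    have c1 := cubic_congr (y := y) (y' := fun i => v (2 * i + 1)) hc
    have c2 := mix_congr (y := y) (y' := fun i => v (2 * i + 1)) (fun i => v (2 * i)) hc
    refine ⟨fun i => v (2 * i), y, hy, fun h3 => ?_⟩
    rw [c1, c2.1, c2.2]
    rw [c1] at h3
    rcases h2 with h4 | h4
    · exact absurd h4 h3
    · exact h4

theorem poly_cubT {L : α → List Mon} {z : α → ℕ → Tm} (hL : Poly L)
    (hz : Poly (fun p : α × ℕ => z p.1 p.2)) : Poly (fun a => cubT (L a) (z a)) := by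
  refine poly_sumTm (Poly.map (F := fun a (m : Mon) => Tm.mul (intTm m.1)
    (Tm.mul (Tm.mul (z a m.2.1) (z a m.2.2.1)) (z a m.2.2.2))) hL ?_)
  have m1 : Poly (fun p : α × Mon => p.2.1) := Poly.fst (Poly.snd Poly.id)
  have i1 : Poly (fun p : α × Mon => p.2.2.1) := Poly.fst (Poly.snd (Poly.snd Poly.id))
  have i2 : Poly (fun p : α × Mon => p.2.2.2.1) :=
    Poly.fst (Poly.snd (Poly.snd (Poly.snd Poly.id)))
  have i3 : Poly (fun p : α × Mon => p.2.2.2.2) :=
    Poly.snd (Poly.snd (Poly.snd (Poly.snd Poly.id)))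
  have hz' : ∀ {g : α × Mon → ℕ}, Poly g → Poly (fun p => z p.1 (g p)) := fun {g} hg =>
    (Poly.comp hz (Poly.pair (Poly.fst Poly.id) hg)).congr fun p => rfl
  exact H612.poly_tmul (poly_intTm m1) (H612.poly_tmul (H612.poly_tmul (hz' i1) (hz' i2))
    (hz' i3))

theorem poly_mixT {L : α → List Mon} {x y : α → ℕ → Tm} (hL : Poly L)
    (hx : Poly (fun p : α × ℕ => x p.1 p.2)) (hy : Poly (fun p : α × ℕ => y p.1 p.2)) :
    Poly (fun a => mixT (L a) (x a) (y a)) := by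
  refine poly_sumTm (Poly.map (F := fun a (m : Mon) => Tm.mul (intTm m.1) (Tm.add (Tm.add
    (Tm.mul (x a m.2.1) (Tm.mul (y a m.2.2.1) (y a m.2.2.2)))
    (Tm.mul (Tm.mul (y a m.2.1) (x a m.2.2.1)) (y a m.2.2.2)))
    (Tm.mul (Tm.mul (y a m.2.1) (y a m.2.2.1)) (x a m.2.2.2)))) hL ?_)
  have m1 : Poly (fun p : α × Mon => p.2.1) := Poly.fst (Poly.snd Poly.id)
  have i1 : Poly (fun p : α × Mon => p.2.2.1) := Poly.fst (Poly.snd (Poly.snd Poly.id))
  have i2 : Poly (fun p : α × Mon => p.2.2.2.1) :=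
    Poly.fst (Poly.snd (Poly.snd (Poly.snd Poly.id)))
  have i3 : Poly (fun p : α × Mon => p.2.2.2.2) :=
    Poly.snd (Poly.snd (Poly.snd (Poly.snd Poly.id)))
  have hx' : ∀ {g : α × Mon → ℕ}, Poly g → Poly (fun p => x p.1 (g p)) := fun {g} hg =>
    (Poly.comp hx (Poly.pair (Poly.fst Poly.id) hg)).congr fun p => rfl
  have hy' : ∀ {g : α × Mon → ℕ}, Poly g → Poly (fun p => y p.1 (g p)) := fun {g} hg =>
    (Poly.comp hy (Poly.pair (Poly.fst Poly.id) hg)).congr fun p => rfl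
  exact H612.poly_tmul (poly_intTm m1) (H612.poly_tadd (H612.poly_tadd
    (H612.poly_tmul (hx' i1) (H612.poly_tmul (hy' i2) (hy' i3)))
    (H612.poly_tmul (H612.poly_tmul (hy' i1) (hx' i2)) (hy' i3)))
    (H612.poly_tmul (H612.poly_tmul (hy' i1) (hy' i2)) (hx' i3)))

theorem poly_discT {a b c d : α → Tm} (ha : Poly a) (hb : Poly b) (hc : Poly c) (hd : Poly d) :
    Poly (fun r => discT (a r) (b r) (c r) (d r)) := by
  have mul : ∀ {u v : α → Tm}, Poly u → Poly v → Poly (fun r => Tm.mul (u r) (v r)) :=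
    fun hu hv => H612.poly_tmul hu hv
  have add : ∀ {u v : α → Tm}, Poly u → Poly v → Poly (fun r => Tm.add (u r) (v r)) :=
    fun hu hv => H612.poly_tadd hu hv
  exact add (mul (mul hb hb) (mul hc hc))
    (add (mul (Poly.const _) (mul ha (mul hc (mul hc hc))))
      (add (mul (Poly.const _) (mul hd (mul hb (mul hb hb))))
        (add (mul (Poly.const _) (mul (mul ha ha) (mul hd hd)))
          (mul (Poly.const _) (mul (mul ha hb) (mul hc hd))))))

end

theorem poly_dir : Poly (fun p : (List Mon × List ℤ) × ℕ => dir p.1.2 p.2) := by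
  have h1 : Poly (fun p : (List Mon × List ℤ) × ℕ => p.1.2) := Poly.snd (Poly.fst Poly.id)
  have h2 : Poly (fun p : (List Mon × List ℤ) × ℕ => p.2) := Poly.snd Poly.id
  have h3 : Poly (fun _ : (List Mon × List ℤ) × ℕ => (0 : ℤ)) := Poly.const 0
  exact Poly.getD h1 h2 h3

theorem poly_dirT : Poly (fun p : (List Mon × List ℤ) × ℕ => dirT p.1.2 p.2) :=
  poly_intTm poly_dir

/-- The four coefficients. -/
def aT (q : List Mon × List ℤ) : Tm := cubT q.1 fun i => dirT q.2 i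
def bT (q : List Mon × List ℤ) : Tm := mixT q.1 (fun i => Tm.var i) fun i => dirT q.2 i
def cT (q : List Mon × List ℤ) : Tm := mixT q.1 (fun i => dirT q.2 i) fun i => Tm.var i
def dT (q : List Mon × List ℤ) : Tm := cubT q.1 fun i => Tm.var i

theorem poly_varT : Poly (fun p : (List Mon × List ℤ) × ℕ => Tm.var p.2) :=
  H612.poly_tvar (Poly.snd Poly.id)

theorem poly_fst : Poly (fun q : List Mon × List ℤ => q.1) := Poly.fst Poly.id

theorem poly_aT : Poly aT := poly_cubT (z := fun (q : List Mon × List ℤ) i => dirT q.2 i) poly_fst poly_dirT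
theorem poly_bT : Poly bT :=
  poly_mixT (x := fun _ i => Tm.var i) (y := fun (q : List Mon × List ℤ) i => dirT q.2 i) poly_fst poly_varT poly_dirT
theorem poly_cT : Poly cT :=
  poly_mixT (y := fun _ i => Tm.var i) (x := fun (q : List Mon × List ℤ) i => dirT q.2 i) poly_fst poly_dirT poly_varT
theorem poly_dT : Poly dT := poly_cubT (z := fun _ i => Tm.var i) poly_fst poly_varT

theorem poly_hypF : Poly hypF := by
  have h5 : Poly (fun q => discT (aT q) (bT q) (cT q) (dT q)) :=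
    poly_discT poly_aT poly_bT poly_cT poly_dT
  have h6 : Poly (fun q => Fm.or (Fm.eq (aT q) Tm.zero)
      (Fm.lt (discT (aT q) (bT q) (cT q) (dT q)) Tm.zero)) :=
    H612.poly_for (H612.poly_feq poly_aT (Poly.const _)) (H612.poly_flt h5 (Poly.const _))
  exact h6.congr fun q => rfl

theorem poly_stabF : Poly stabF := by
  have hL : Poly (fun L : List Mon => L) := Poly.id
  have hx : Poly (fun p : List Mon × ℕ => Tm.var (2 * p.2)) :=
    H612.poly_tvar (Poly.mul (Poly.const 2) (Poly.snd Poly.id))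
  have hy : Poly (fun p : List Mon × ℕ => Tm.var (2 * p.2 + 1)) :=
    H612.poly_tvar (Poly.add (Poly.mul (Poly.const 2) (Poly.snd Poly.id)) (Poly.const 1))
  have h1 : Poly (fun L : List Mon => cubT L fun i => Tm.var (2 * i + 1)) :=
    poly_cubT (z := fun _ i => Tm.var (2 * i + 1)) hL hy
  have h2 : Poly (fun L : List Mon => mixT L (fun i => Tm.var (2 * i)) fun i =>
      Tm.var (2 * i + 1)) :=
    poly_mixT (x := fun _ i => Tm.var (2 * i)) (y := fun _ i => Tm.var (2 * i + 1)) hL hx hy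
  have h3 : Poly (fun L : List Mon => mixT L (fun i => Tm.var (2 * i + 1)) fun i =>
      Tm.var (2 * i)) :=
    poly_mixT (y := fun _ i => Tm.var (2 * i)) (x := fun _ i => Tm.var (2 * i + 1)) hL hy hx
  have h4 : Poly (fun L : List Mon => cubT L fun i => Tm.var (2 * i)) :=
    poly_cubT (z := fun _ i => Tm.var (2 * i)) hL hx
  have h5 : Poly (fun L : List Mon => H612.conj (L.map fun m => Fm.and
      (Fm.lt Tm.zero (Tm.var (2 * m.2.1 + 1))) (Fm.and (Fm.lt Tm.zero (Tm.var (2 * m.2.2.1 + 1)))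
        (Fm.lt Tm.zero (Tm.var (2 * m.2.2.2 + 1)))))) := by
    refine H612.poly_conj (Poly.map (F := fun (_ : List Mon) (m : Mon) => Fm.and
      (Fm.lt Tm.zero (Tm.var (2 * m.2.1 + 1))) (Fm.and (Fm.lt Tm.zero (Tm.var (2 * m.2.2.1 + 1)))
        (Fm.lt Tm.zero (Tm.var (2 * m.2.2.2 + 1))))) hL ?_)
    have v : ∀ {g : List Mon × Mon → ℕ}, Poly g → Poly (fun p => Fm.lt Tm.zero
        (Tm.var (2 * g p + 1))) := fun hg => H612.poly_flt (Poly.const _)
      (H612.poly_tvar (Poly.add (Poly.mul (Poly.const 2) hg) (Poly.const 1)))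
    exact H612.poly_fand (v (Poly.fst (Poly.snd (Poly.snd Poly.id))))
      (H612.poly_fand (v (Poly.fst (Poly.snd (Poly.snd (Poly.snd Poly.id)))))
        (v (Poly.snd (Poly.snd (Poly.snd (Poly.snd Poly.id))))))
  exact H612.poly_fand h5 (H612.poly_for (H612.poly_feq h1 (Poly.const _))
    (H612.poly_flt (poly_discT h1 h2 h3 h4) (Poly.const _)))

theorem memH : InAR (lang Hyperbolic) := InAR.of_poly poly_hypF hyp_correct

theorem memS : InAR (lang Stable) := InAR.of_poly poly_stabF stab_correct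

theorem completeH : ARComplete (lang Hyperbolic) := ⟨memH, hardH⟩

theorem completeS : ARComplete (lang Stable) := ⟨memS, hardS⟩

end Pool.Agent.NPC.TH925HC
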